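import Pool.Agent.Q298.EF.IsoLow
import Pool.Agent.Q298.JS.Tow

/-!
Pluricanonical forms of a subfield as a stage of a tower of fibrations.
-/

set_option autoImplicit false
set_option linter.unusedSectionVars false
set_option linter.overlappingInstances false

open FF hiding phi
open Module Pool.Agent.W603.LV Pool.Agent.W602.GT Pool.Agent.W602.Cov Pool.Agent.W602.Cov.G
open Pool.Agent.TH152.AC hiding pf
open Pool.Agent.TH766.MC
open Pool.Agent.Y172 Pool.Agent.TH585.SV Pool.Agent.Y191
open Pool.Agent.Q298.JS Pool.Agent.Q298.EF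

namespace Pool.Agent.Q298.MX

variable {K : Type} [Field K] [Algebra ℂ K] {e₀ e₁ N : ℕ}

theorem der_M {M : IntermediateField ℂ K} {b : Fin e₀ → M} (hb : IsTranscendenceBasis ℂ b)
    {D : Derivation ℂ K K} (h : ∀ i, D (b i : K) = 0) : Kills D M := fun z hz =>
  Pool.Agent.W619.TW.der_zero (K := M) (L := K) (D.compAlgebraMap M) b hb h ⟨z, hz⟩

/-- a transcendence basis in two parts -/
theorem basis_two {L M : IntermediateField ℂ K} {b : Fin e₀ → M} (hb : IsTranscendenceBasis ℂ b)
    {x : Fin e₁ → K} (hK : Algebra.trdeg L K = (e₀ + e₁ : ℕ))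
    (hkill : ∀ D : Derivation ℂ K K, Kills D L → Kills D M → (∀ i, D (x i) = 0) → D = 0) :
    IsTranscendenceBasis L (Sum.elim (fun i => (b i : K)) x) := by
  have hcL : CharZero L := charZero_of_injective_algebraMap (algebraMap ℂ L).injective
  obtain ⟨u, -, hu, -⟩ := exists_crd hK
  exact basis_of_gen (hu.comp_equiv finSumFinEquiv) fun D hD h =>
    hkill D hD (der_M hb fun i => h (Sum.inl i)) fun i => h (Sum.inr i)

/-- independence over the compositum -/
theorem indep_sup {L M L' : IntermediateField ℂ K} {b : Fin e₀ → M}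
    (hb : IsTranscendenceBasis ℂ b) {x : Fin e₁ → K}
    (hbx : AlgebraicIndependent L (Sum.elim (fun i => (b i : K)) x)) (hLL : L ≤ L') (hML : M ≤ L')
    (hgen : ∀ D : Derivation ℂ K K, Kills D L → Kills D M → Kills D L') :
    AlgebraicIndependent L' x := by
  classical
  obtain ⟨b', hb'⟩ : ∃ b' : Fin e₀ → K, ∀ i, b' i = (b i : K) := ⟨_, fun _ => rfl⟩
  have h1 : AlgebraicIndependent L (Sum.elim x b') := by
    have h2 := hbx.comp (Equiv.sumComm (Fin e₁) (Fin e₀)) (Equiv.injective _)
    have h3 : Sum.elim (fun i => (b i : K)) x ∘ (Equiv.sumComm (Fin e₁) (Fin e₀)) =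
        Sum.elim x b' := by
      funext i
      rcases i with i | i
      · rfl
      · exact (hb' i).symm
    rwa [h3] at h2
  have h2 := (AlgebraicIndependent.sumElim_iff.1 h1).2
  have hLC : CharZero L := charZero_of_injective_algebraMap (algebraMap ℂ L).injective
  -- all elements of `L'` are algebraic over `L (b)`
  have hall : ∀ z ∈ L', z ∈ Pool.Agent.Y172.acl L (Set.range b') := by
    intro z hz
    by_contra hcon
    obtain ⟨D, h3, h4⟩ := Pool.Agent.Y172.exists_der_ne
      (Pool.Agent.Y172.acl_closed (k := L) (Set.range b')) hcon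
    have h5 : Kills (D.restrictScalars ℂ) L := fun y hy => D.map_algebraMap (⟨y, hy⟩ : L)
    have h6 : Kills (D.restrictScalars ℂ) M := der_M hb fun i => by
      rw [← hb']
      exact h3 _ (Pool.Agent.Y172.subset_acl _ ⟨i, rfl⟩)
    have h7 : D z = 0 := hgen _ h5 h6 z hz
    rw [h4] at h7
    exact one_ne_zero h7
  have hRL : ∀ r : Algebra.adjoin L (Set.range b'), (r : K) ∈ L' := by
    intro r
    have h3 : Algebra.adjoin L (Set.range b') ≤
        (IntermediateField.extendScalars (F := L) (E := L') hLL).toSubalgebra := by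
      refine Algebra.adjoin_le ?_
      rintro _ ⟨i, rfl⟩
      rw [hb']
      exact hML (b i).2
    exact h3 r.2
  let ι : Algebra.adjoin L (Set.range b') →+* L' :=
    ((Algebra.adjoin L (Set.range b')).val.toRingHom).codRestrict L'.toSubfield.toSubring
      fun r => hRL r
  let _ : Algebra (Algebra.adjoin L (Set.range b')) L' := ι.toAlgebra
  have t1 : IsScalarTower (Algebra.adjoin L (Set.range b')) L' K :=
    IsScalarTower.of_algebraMap_eq fun _ => rfl
  have t2 : Algebra.IsAlgebraic (Algebra.adjoin L (Set.range b')) L' := by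
    refine ⟨fun z => ?_⟩
    have h3 := mem_acl.1 (hall _ z.2)
    open scoped IntermediateField.algebraAdjoinAdjoin in
    have h4 : IsAlgebraic (Algebra.adjoin L (Set.range b')) (z : K) :=
      (IsFractionRing.isAlgebraic_iff (A := Algebra.adjoin L (Set.range b'))
        (K := IntermediateField.adjoin L (Set.range b')) (C := K)).2 h3
    exact (isAlgebraic_algebraMap_iff (R := Algebra.adjoin L (Set.range b')) (A := K)
      (FaithfulSMul.algebraMap_injective L' K)).1 h4
  exact h2.extendScalars L'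

theorem basis_over {L M L' : IntermediateField ℂ K} {b : Fin e₀ → M}
    (hb : IsTranscendenceBasis ℂ b) {x : Fin e₁ → K} (hK : Algebra.trdeg L K = (e₀ + e₁ : ℕ))
    (hkill : ∀ D : Derivation ℂ K K, Kills D L → Kills D M → (∀ i, D (x i) = 0) → D = 0)
    (hLL : L ≤ L') (hML : M ≤ L')
    (hgen : ∀ D : Derivation ℂ K K, Kills D L → Kills D M → Kills D L') :
    IsTranscendenceBasis L' x :=
  basis_of_kill (indep_sup hb (basis_two hb hK hkill).1 hLL hML hgen) fun D hD h =>
    hkill D (fun z hz => hD z (hLL hz)) (fun z hz => hD z (hML hz)) h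

/-- **Pluricanonical forms of a subfield as a stage.** -/
theorem pluri_stage {m₀ a lam : ℕ} (hN : Algebra.trdeg ℂ K = N) {L L' M : IntermediateField ℂ K}
    (hLL : L ≤ L') (hML : M ≤ L')
    (hgen : ∀ D : Derivation ℂ K K, Kills D L → Kills D M → Kills D L')
    (hLK : Algebra.trdeg L K = (e₀ + e₁ : ℕ)) (hLK' : Algebra.trdeg L' K = e₁)
    (hM : Algebra.trdeg ℂ M = e₀) [Algebra.EssFiniteType ℂ M]
    {η : Fin (a + 1) → (Fin e₀ → Derivation ℂ M M) → M}
    (hη : ∀ l, IsPluri m₀ (η l) ∧ ∀ P : Place ℂ M, Divisorial e₀ P →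
      ∀ D : Fin e₀ → Derivation ℂ M M, (∀ i, DerReg P (D i)) → P.Reg (η l D))
    (hne : ∃ D, η 0 D ≠ 0 ∧ AlgebraicIndependent ℂ (fun i : Fin a => η i.succ D / η 0 D))
    (hm₀ : 0 < m₀) {X : Set (Place ℂ K)} {δ : Place ℂ K → ℝ} (hF : HasF N X δ L' e₁ lam) :
    HasF N X δ L (e₀ + e₁) (a + lam) := by
  classical
  have hcL' : CharZero L' := charZero_of_injective_algebraMap (algebraMap ℂ L').injective
  have hcM : CharZero M := charZero_of_injective_algebraMap (algebraMap ℂ M).injective
  obtain ⟨y, E, hy, hE⟩ := exists_crd hM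
  obtain ⟨u, -, hu, -⟩ := exists_crd hLK'
  have hkill : ∀ D : Derivation ℂ K K, Kills D L → Kills D M → (∀ i, D (u i) = 0) → D = 0 :=
    fun D h1 h2 h3 => ext_over hu (hgen D h1 h2) (fun _ _ => rfl) h3
  obtain ⟨Dt, Du, F⟩ := exists_rfr (basis_two hy hLK hkill)
  have hHz : ∀ f ∈ L', Hz Du f := fun f hf l =>
    hgen (Du l) (fun z hz => F.cu l z hz) (der_M hy fun j => F.ut l j) f hf
  obtain ⟨D0, hD0, hind⟩ := hne
  have hval : ∀ l (D : Fin e₀ → Derivation ℂ M M), η l D =
      (Matrix.of fun i j => D i (y j)).det ^ m₀ * η l E := fun l D =>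
    pluri_coord hy (fun i j => hE i j) (hη l).1 D
  have hpow0 : (Matrix.of fun i j => D0 i (y j)).det ^ m₀ ≠ 0 := by
    intro h0
    apply hD0
    rw [hval, h0, zero_mul]
  have hE0 : η 0 E ≠ 0 := by
    intro h0
    apply hD0
    rw [hval, h0, mul_zero]
  have hind' : AlgebraicIndependent ℂ (fun i : Fin a => η i.succ E / η 0 E) := by
    have h3 : (fun i : Fin a => η i.succ D0 / η 0 D0) = fun i => η i.succ E / η 0 E := by
      funext i
      rw [hval i.succ, hval 0, mul_div_mul_left _ _ hpow0]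
    rwa [h3] at hind
  -- independence over `L`
  have hindL : AlgebraicIndependent L (fun i : Fin a => ((η i.succ E / η 0 E : M) : K)) := by
    obtain ⟨t, ht, hb⟩ := exists_isTranscendenceBasis_superset (R := ℂ)
      (s := Set.range fun i : Fin a => η i.succ E / η 0 E) hind'.to_subtype_range
    have h1 := hb.cardinalMk_eq_trdeg
    rw [hM] at h1
    have h2 : Cardinal.lift.{0} (Cardinal.mk t) = Cardinal.lift.{0} (Cardinal.mk (Fin e₀)) := by
      rw [h1]
      simp
    obtain ⟨ε⟩ := Cardinal.lift_mk_eq'.1 h2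
    have h3 : IsTranscendenceBasis ℂ ((↑) ∘ ε.symm : Fin e₀ → M) :=
      (isTranscendenceBasis_equiv ε.symm).2 hb
    have h4 := (basis_two h3 hLK hkill).1
    have h5 : (fun i : Fin a => ((η i.succ E / η 0 E : M) : K)) =
        (Sum.elim (fun i => (((↑) ∘ ε.symm : Fin e₀ → M) i : K)) u) ∘
        fun i : Fin a => Sum.inl (ε ⟨η i.succ E / η 0 E, ht ⟨i, rfl⟩⟩) := by
      funext i
      change ((η i.succ E / η 0 E : M) : K) =
        (((ε.symm (ε ⟨η i.succ E / η 0 E, ht ⟨i, rfl⟩⟩)) : t) : M)
      rw [Equiv.symm_apply_apply]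
    rw [h5]
    refine h4.comp _ fun i j hij => ?_
    have h6 := ε.injective (Sum.inl_injective hij)
    exact hind'.injective (congrArg Subtype.val h6)
  obtain ⟨m, hm, θ, hθ, hne'⟩ := hF
  obtain ⟨w, hw⟩ : ∃ w : Fin (a + 1) → K, ∀ j, w j = ((η j E / η 0 E : M) : K) :=
    ⟨_, fun _ => rfl⟩
  obtain ⟨ω, h1, h2⟩ := F.pairs (N := N) (κ := a) (L' := L') (δ₁ := fun _ => 0) (δ₂ := δ) (δ := δ)
    (f := ((η 0 E : M) : K)) (w := w) (M := m₀) hLL hHz (fun j => hML (y j).2)
    (fun P _ => by rw [zero_add]) hm (fun b => (hθ b).1)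
    (fun P hPX hPd G hG b => (hθ b).2 P hPX hPd G hG) hne' hm₀
    (fun h0 => hE0 (Subtype.ext h0)) (by rw [hw, div_self hE0]; rfl)
    (by
      have h3 : (fun i : Fin a => w i.succ) = fun i : Fin a => ((η i.succ E / η 0 E : M) : K) :=
        funext fun i => hw _
      rw [h3]
      exact hindL) (fun j => by rw [hw]; exact hML (η j E / η 0 E : M).2) (by
      intro P _ hPd G hG _ b
      refine ⟨0, ?_, by simp⟩
      obtain ⟨Z, z, hz, hD, hge⟩ := Pool.Agent.W619.Y.pYLOC ℂ K M e₀ N m₀ hM hN
        (fun y hy => Pool.Agent.W619.Y.fin_over y hy) (η b) (hη b).1 (hη b).2 y E hy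
        (fun i j => hE i j) P hPd
      have h1 : mtx (fun j => ((y j : M) : K)) G =
          (Matrix.of fun i c => G i (z c)) * Z.transpose := by
        ext i j
        rw [Matrix.mul_apply]
        have h2 := hD (G i) j
        change G i ((y j : M) : K) = ∑ c, Z j c * G i (z c) at h2
        change G i ((y j : M) : K) = _
        rw [h2]
        exact Finset.sum_congr rfl fun c _ => mul_comm _ _
      have h3 : Ge P 0 (Matrix.of fun i c => G i (z c)).det := det_reg fun i c => hG i _ (hz c)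
      have h6 : ((η 0 E : M) : K) * w b = ((η b E : M) : K) := by
        rw [hw]
        have h7 : (η 0 E) * (η b E / η 0 E) = η b E := mul_div_cancel₀ _ hE0
        exact congrArg Subtype.val h7
      rw [h6, h1, Matrix.det_mul, Matrix.det_transpose, mul_pow]
      have h5 := hge.mul (Ge.pow h3 m₀)
      rw [mul_zero, add_zero] at h5
      have h7 : (Matrix.of fun i c => G i (z c)).det ^ m₀ * Z.det ^ m₀ * ((η b E : M) : K) =
          ((η b E : M) : K) * Z.det ^ m₀ * (Matrix.of fun i c => G i (z c)).det ^ m₀ := by ring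
      rw [h7]
      exact h5)
  exact ⟨m₀ * m, Nat.mul_pos hm₀ hm, ω, h1, h2⟩

end Pool.Agent.Q298.MX
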