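import Pool.Agent.Q298.MX.CycA

/-!
Fibrations whose geometric generic fibre is the product of a fixed variety and of superelliptic
curves.
-/

set_option autoImplicit false
set_option linter.unusedSectionVars false
set_option linter.overlappingInstances false

open FF Module Pool.Agent.W602.GT Pool.Agent.W603.LV
open Pool.Agent.Y172 Pool.Agent.TH585.SV Pool.Agent.Y191
open Pool.Agent.Q298.JS Pool.Agent.Q298.EF
open Polynomial

namespace Pool.Agent.Q298.MX

section

variable {K : Type} [Field K] [Algebra ℂ K] {e₀ e₁ : ℕ} {L M : IntermediateField ℂ K}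

theorem acl_mono' {L L₁ : IntermediateField ℂ K} (h : L ≤ L₁) :
    acl ℂ (L : Set K) ≤ acl ℂ (L₁ : Set K) :=
  acl_le (acl_closed _) fun _ hz => subset_acl _ (h hz)

theorem aeval_mem_acl {C : IntermediateField ℂ K} (hC : acl ℂ (L : Set K) ≤ C) {x : K}
    (hx : x ∈ C) (p : (acl ℂ (L : Set K))[X]) : aeval x p ∈ C := by
  rw [aeval_eq_sum_range]
  refine sum_mem fun i _ => ?_
  rw [Algebra.smul_def]
  exact mul_mem (hC (p.coeff i).2) (pow_mem hx i)

theorem mixc_kill {x z : Fin e₁ → K} {m : Fin e₁ → ℕ} (hm : ∀ j, 1 ≤ m j)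
    {G : Fin e₁ → (acl ℂ (L : Set K))[X]} (heq : ∀ j, z j ^ m j = aeval (x j) (G j))
    (hgen : IntermediateField.adjoin ℂ
      ((acl ℂ (L : Set K) : Set K) ∪ (M : Set K) ∪ Set.range x ∪ Set.range z) = ⊤)
    (D : Derivation ℂ K K) (hL : Kills D L) (hM : Kills D M) (hx : ∀ i, D (x i) = 0) : D = 0 := by
  have hch : CharZero K := charZero_of_injective_algebraMap (algebraMap ℂ K).injective
  have hal : acl ℂ (L : Set K) ≤ cfield D := fun a ha => by
    rw [mem_cfield]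
    exact der_alg0 D (S := (L : Set K)) (fun s hs => hL s hs) (mem_acl.1 ha)
  have hxc : ∀ j, x j ∈ cfield D := fun j => mem_cfield.2 (hx j)
  have h1 : (⊤ : IntermediateField ℂ K) ≤ cfield D := by
    rw [← hgen, IntermediateField.adjoin_le_iff]
    rintro a (((ha | ha) | ⟨j, rfl⟩) | ⟨j, rfl⟩)
    · exact hal ha
    · exact mem_cfield.2 (hM a ha)
    · exact hxc j
    · have h2 : z j ^ m j ∈ cfield D := by
        rw [heq]
        exact aeval_mem_acl hal (hxc j) _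
      rw [mem_cfield, D.leibniz_pow, smul_eq_zero] at h2
      rcases h2 with h2 | h2
      · have := hm j
        omega
      · rw [smul_eq_mul] at h2
        rcases mul_eq_zero.1 h2 with h3 | h3
        · rw [eq_zero_of_pow_eq_zero h3]
          exact zero_mem _
        · exact mem_cfield.2 h3
  ext z
  exact mem_cfield.1 (h1 (trivial : z ∈ (⊤ : IntermediateField ℂ K)))

/-- **A fixed factor and superelliptic curves**: forms along the fibres. -/
theorem mixc_up {N : ℕ} (hK : Algebra.trdeg ℂ K = N) (hLK : Algebra.trdeg L K = (e₀ + e₁ : ℕ))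
    [Algebra.EssFiniteType ℂ M] (hM : Algebra.trdeg ℂ M = e₀)
    {x z : Fin e₁ → K} {m : Fin e₁ → ℕ} (hm : ∀ j, 1 ≤ m j)
    {G : Fin e₁ → (acl ℂ (L : Set K))[X]} (hG : ∀ j, G j ≠ 0)
    (heq : ∀ j, z j ^ m j = aeval (x j) (G j))
    (hgen : IntermediateField.adjoin ℂ
      ((acl ℂ (L : Set K) : Set K) ∪ (M : Set K) ∪ Set.range x ∪ Set.range z) = ⊤)
    (X : Set (Place ℂ K)) (hw : ∀ j, 2 ≤ wgt (m j) (G j)) (m₀ a : ℕ) (hm₀ : 0 < m₀)
    (η : Fin (a + 1) → (Fin e₀ → Derivation ℂ M M) → M)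
    (hη : ∀ l, IsPluri m₀ (η l) ∧ ∀ P : Place ℂ M, Divisorial e₀ P →
      ∀ D : Fin e₀ → Derivation ℂ M M, (∀ i, DerReg P (D i)) → P.Reg (η l D))
    (hne : ∃ D, η 0 D ≠ 0 ∧ AlgebraicIndependent ℂ (fun i : Fin a => η i.succ D / η 0 D)) :
    HasF N X (fun _ => 0) L (e₀ + e₁)
      (a + (Finset.univ.filter fun j => 2 < wgt (m j) (G j)).card) := by
  classical
  have hcM : CharZero M := charZero_of_injective_algebraMap (algebraMap ℂ M).injective
  obtain ⟨b, -, hb, -⟩ := exists_crd hM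
  obtain ⟨L₁, hL₁⟩ : ∃ L₁ : IntermediateField ℂ K, L₁ = L ⊔ M := ⟨_, rfl⟩
  have hL : L ≤ L₁ := by
    rw [hL₁]
    exact le_sup_left
  have hM₁ : M ≤ L₁ := by
    rw [hL₁]
    exact le_sup_right
  have hsup : ∀ D : Derivation ℂ K K, Kills D L → Kills D M → Kills D L₁ := by
    intro D h1 h2
    have h3 : L₁ ≤ cfield D := by
      rw [hL₁]
      exact sup_le (fun z hz => mem_cfield.2 (h1 z hz)) fun z hz => mem_cfield.2 (h2 z hz)
    exact fun z hz => mem_cfield.1 (h3 hz)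
  clear hL₁
  have hx : IsTranscendenceBasis L₁ x := basis_over hb hLK (mixc_kill hm heq hgen) hL hM₁ hsup
  have hgen' : IntermediateField.adjoin ℂ
      ((acl ℂ (L₁ : Set K) : Set K) ∪ Set.range x ∪ Set.range z) = ⊤ := by
    rw [eq_top_iff, ← hgen, IntermediateField.adjoin_le_iff]
    rintro a (((ha | ha) | ha) | ha)
    · exact IntermediateField.subset_adjoin _ _ (Or.inl (Or.inl (acl_mono' hL ha)))
    · exact IntermediateField.subset_adjoin _ _ (Or.inl (Or.inl (subset_acl _ (hM₁ ha))))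
    · exact IntermediateField.subset_adjoin _ _ (Or.inl (Or.inr ha))
    · exact IntermediateField.subset_adjoin _ _ (Or.inr ha)
  obtain ⟨s, g, aa, c, hc, hws⟩ := cyc_ext (acl_mono' hL) (basis_acl hx) hm hG heq hgen'
  obtain ⟨κ, hκ, hκs⟩ : ∃ κ : Fin (Finset.univ.filter fun j => 2 < wgt (m j) (G j)).card → Fin e₁,
      Function.Injective κ ∧ ∀ i, 2 < wgt (m (κ i)) (G (κ i)) := by
    let ψ := (Finset.univ.filter fun j => 2 < wgt (m j) (G j)).equivFin
    exact ⟨fun i => (ψ.symm i : Fin e₁), fun a b hab => ψ.symm.injective (Subtype.ext hab),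
      fun i => (Finset.mem_filter.1 (ψ.symm i).2).2⟩
  have h4 := cyc_low (N := N) hc (fun j => by rw [hws]; exact hw j) hκ
    (fun i => by rw [hws]; exact hκs i) X
  have hbas := hx.cardinalMk_eq_trdeg
  exact pluri_stage (N := N) (e₀ := e₀) (e₁ := e₁) hK (L := L) (L' := L₁)
    (M := M) hL hM₁ hsup hLK (by rw [← hbas]; simp) hM hη hne hm₀ h4

end

section

variable {K K' : Type} [Field K] [Field K'] [Algebra ℂ K] [Algebra ℂ K'] [Algebra K K']
  [IsScalarTower ℂ K K'] [FiniteDimensional K K'] [Algebra.EssFiniteType ℂ K] {d e₀ e₁ : ℕ}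

/-- **A fixed factor and superelliptic curves**, after a base change. -/
theorem mixc (hK : Algebra.trdeg ℂ K = (d + (e₀ + e₁) : ℕ))
    {L : IntermediateField ℂ K} (hL : Algebra.trdeg ℂ L = d) {α : K'}
    (hα : IsAlgebraic (upF K' L) α) (htop : ∀ z : K', ∃ p : Polynomial K, z = Polynomial.aeval α p)
    {M : IntermediateField ℂ K'} [Algebra.EssFiniteType ℂ M] (hM : Algebra.trdeg ℂ M = e₀)
    {x z : Fin e₁ → K'} {m : Fin e₁ → ℕ} (hm : ∀ j, 1 ≤ m j)
    {G : Fin e₁ → (acl ℂ (upF K' L : Set K'))[X]} (hG : ∀ j, G j ≠ 0)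
    (heq : ∀ j, z j ^ m j = aeval (x j) (G j))
    (hgen : IntermediateField.adjoin ℂ
      ((acl ℂ (upF K' L : Set K') : Set K') ∪ (M : Set K') ∪ Set.range x ∪ Set.range z) = ⊤)
    (X : Set (Place ℂ K)) (hw : ∀ j, 2 ≤ wgt (m j) (G j)) (m₀ a : ℕ) (hm₀ : 0 < m₀)
    (η : Fin (a + 1) → (Fin e₀ → Derivation ℂ M M) → M)
    (hη : ∀ l, IsPluri m₀ (η l) ∧ ∀ P : Place ℂ M, Divisorial e₀ P →
      ∀ D : Fin e₀ → Derivation ℂ M M, (∀ i, DerReg P (D i)) → P.Reg (η l D))
    (hne : ∃ D, η 0 D ≠ 0 ∧ AlgebraicIndependent ℂ (fun i : Fin a => η i.succ D / η 0 D)) :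
    HasF (d + (e₀ + e₁)) X (fun _ => 0) L (e₀ + e₁)
      (a + (Finset.univ.filter fun j => 2 < wgt (m j) (G j)).card) := by
  classical
  have hfinK' : Algebra.EssFiniteType K K' := inferInstance
  have hess : Algebra.EssFiniteType ℂ K' := Algebra.EssFiniteType.comp ℂ K K'
  have hK' : Algebra.trdeg ℂ K' = (d + (e₀ + e₁) : ℕ) := by
    have h0 : Algebra.IsAlgebraic K K' := inferInstance
    rw [← _root_.trdeg_add_eq ℂ K (A := K'), trdeg_eq_zero_iff.2 h0, add_zero, hK]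
  have hLup : Algebra.trdeg ℂ (upF K' L) = d := by
    rw [← hL]
    exact ((L.equivMap (IsScalarTower.toAlgHom ℂ K K')).trdeg_eq).symm
  have hLK : Algebra.trdeg L K = (e₀ + e₁ : ℕ) := trdeg_over hL hK
  have hLK' : Algebra.trdeg (upF K' L) K' = (e₀ + e₁ : ℕ) := trdeg_over hLup hK'
  obtain ⟨M', hM', θ, hθ, hθ0⟩ := mixc_up (N := d + (e₀ + e₁)) hK' hLK' hM hm hG heq hgen
    {Q | ∃ P ∈ X, ∃ ε, Over Q P ε} hw m₀ a hm₀ η hη hne
  exact push hM' hLK hα htop hθ hθ0

end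

end Pool.Agent.Q298.MX
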