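import Pool.Agent.Q298.MX.Mixa

/-!
The data of cyclic covers over a larger field.
-/

set_option autoImplicit false
set_option linter.unusedSectionVars false

open FF Module Pool.Agent.W602.GT Pool.Agent.W603.LV
open Pool.Agent.Y172 Pool.Agent.TH585.SV Pool.Agent.Y191
open Pool.Agent.Q298.JS Pool.Agent.Q298.EF
open Polynomial

namespace Pool.Agent.Q298.MX

variable {K : Type} [Field K] [Algebra ℂ K] {e₁ : ℕ}

theorem aeval_inc {A A₁ : IntermediateField ℂ K} {ι : A →+* A₁} (hι : ∀ w, (ι w : K) = (w : K))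
    (p : A[X]) (w : K) : aeval w (p.map ι) = aeval w p := by
  rw [aeval_def, aeval_def, eval₂_map]
  congr 1
  exact RingHom.ext hι

theorem cyc_ext {A A₁ : IntermediateField ℂ K} (hA : A ≤ A₁) {x z : Fin e₁ → K}
    (hx : IsTranscendenceBasis A₁ x) {m : Fin e₁ → ℕ} (hm : ∀ j, 1 ≤ m j)
    {G : Fin e₁ → A[X]} (hG : ∀ j, G j ≠ 0) (heq : ∀ j, z j ^ m j = aeval (x j) (G j))
    (hgen : IntermediateField.adjoin ℂ ((A₁ : Set K) ∪ Set.range x ∪ Set.range z) = ⊤) :
    ∃ (s : Fin e₁ → ℕ) (g : ∀ j, Fin (s j) → A₁[X]) (a : ∀ j, Fin (s j) → ℕ) (c : Fin e₁ → K),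
      CycData A₁ x z m s g a c ∧ ∀ j, wsum m s g a j = wgt (m j) (G j) := by
  classical
  have hch : CharZero A := charZero_of_injective_algebraMap (algebraMap ℂ A).injective
  choose s g a hsep hfac hw using fun j => exists_fac (hG j)
  obtain ⟨ι, hι⟩ : ∃ ι : A →+* A₁, ∀ w, (ι w : K) = (w : K) :=
    ⟨(IntermediateField.inclusion hA).toRingHom, fun _ => rfl⟩
  have hinj : Function.Injective ι := ι.injective
  have h1 : ∀ j, (∏ k, (g j k).map ι).Separable := fun j => by
    rw [← Polynomial.map_prod]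
    exact (hsep j).map
  have h2 : ∀ j, ((G j).leadingCoeff : K) ∈ A₁ ∧ ((G j).leadingCoeff : K) ≠ 0 := fun j =>
    ⟨hA (G j).leadingCoeff.2, fun h0 =>
      hG j (Polynomial.leadingCoeff_eq_zero.1 (Subtype.ext h0))⟩
  have h3 : ∀ j, z j ^ m j = ((G j).leadingCoeff : K) *
      ∏ k, aeval (x j) ((g j k).map ι) ^ a j k := fun j => by
    have h4 : aeval (x j) (G j) = aeval (x j) (C (G j).leadingCoeff * ∏ k, g j k ^ a j k) :=
      congrArg _ (hfac j)
    rw [heq j, h4, map_mul, Polynomial.aeval_C, map_prod]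
    refine congrArg₂ _ rfl (Finset.prod_congr rfl fun k _ => ?_)
    rw [map_pow, aeval_inc hι]
  refine ⟨s, fun j k => (g j k).map ι, a, fun j => ((G j).leadingCoeff : K),
    ⟨hx, hm, h1, h2, h3, hgen⟩, fun j => ?_⟩
  have h5 := hw j (m j)
  unfold wsum wtc
  rw [← h5]
  simp only [natDegree_map_eq_of_injective hinj]

end Pool.Agent.Q298.MX
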