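import Pool.Agent.Q298.MX.Mixa

/-!
Fibrations whose geometric generic fibre is the product of a fixed variety and of double covers.
-/

set_option autoImplicit false
set_option linter.unusedSectionVars false
set_option linter.overlappingInstances false

open FF Module Pool.Agent.W602.GT Pool.Agent.W603.LV
open Pool.Agent.Y172 Pool.Agent.TH585.SV Pool.Agent.Y191
open Pool.Agent.Q298.JS Pool.Agent.Q298.EF
open Polynomial

namespace Pool.Agent.Q298.MX

section

variable {K K' : Type} [Field K] [Field K'] [Algebra ℂ K] [Algebra ℂ K'] [Algebra K K']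
  [IsScalarTower ℂ K K'] [FiniteDimensional K K'] [Algebra.EssFiniteType ℂ K] {d e₀ e₁ : ℕ}

/-- **A fixed factor and double covers of any degree**, after a base change. -/
theorem mixd (hK : Algebra.trdeg ℂ K = (d + (e₀ + e₁) : ℕ))
    {L : IntermediateField ℂ K} (hL : Algebra.trdeg ℂ L = d) {α : K'}
    (hα : IsAlgebraic (upF K' L) α) (htop : ∀ z : K', ∃ p : Polynomial K, z = Polynomial.aeval α p)
    {M : IntermediateField ℂ K'} [Algebra.EssFiniteType ℂ M] (hM : Algebra.trdeg ℂ M = e₀)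
    {x y : Fin e₁ → K'} {F : Fin e₁ → K'[X]} (hF0 : ∀ j, F j ≠ 0)
    (hFa : ∀ j i, IsAlgebraic (upF K' L) ((F j).coeff i))
    (hxy : ∀ j, y j ^ 2 = (F j).eval (x j))
    (hgen : IntermediateField.adjoin ℂ
      ({a | IsAlgebraic (upF K' L) a} ∪ (M : Set K') ∪ Set.range x ∪ Set.range y) = ⊤)
    (X : Set (Place ℂ K)) :
    (Unir M e₀ → Unir K (d + (e₀ + e₁))) ∧
    (∀ j, oddRoots (F j) ≤ 2 → Unir K (d + (e₀ + e₁))) ∧
    ((∀ j, 3 ≤ oddRoots (F j)) → ∀ (m a : ℕ), 0 < m →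
      ∀ η : Fin (a + 1) → (Fin e₀ → Derivation ℂ M M) → M,
      (∀ l, IsPluri m (η l) ∧ ∀ P : Place ℂ M, Divisorial e₀ P →
        ∀ D : Fin e₀ → Derivation ℂ M M, (∀ i, DerReg P (D i)) → P.Reg (η l D)) →
      (∃ D, η 0 D ≠ 0 ∧ AlgebraicIndependent ℂ (fun i : Fin a => η i.succ D / η 0 D)) →
      HasF (d + (e₀ + e₁)) X (fun _ => 0) L (e₀ + e₁)
        (a + (Finset.univ.filter fun j => 5 ≤ oddRoots (F j)).card)) := by
  classical
  have hfinK' : Algebra.EssFiniteType K K' := inferInstance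
  have hess : Algebra.EssFiniteType ℂ K' := Algebra.EssFiniteType.comp ℂ K K'
  have hK' : Algebra.trdeg ℂ K' = (d + (e₀ + e₁) : ℕ) := by
    have h0 : Algebra.IsAlgebraic K K' := inferInstance
    rw [← _root_.trdeg_add_eq ℂ K (A := K'), trdeg_eq_zero_iff.2 h0, add_zero, hK]
  have hLup : Algebra.trdeg ℂ (upF K' L) = d := by
    rw [← hL]
    exact ((L.equivMap (IsScalarTower.toAlgHom ℂ K K')).trdeg_eq).symm
  have hLK : Algebra.trdeg L K = (e₀ + e₁ : ℕ) := trdeg_over hL hK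
  have hLK' : Algebra.trdeg (upF K' L) K' = (e₀ + e₁ : ℕ) := trdeg_over hLup hK'
  obtain ⟨hx, halg, hgen', hkill⟩ := mix_over hLK' hM hFa hxy hgen
  have hFa' : ∀ j i, IsAlgebraic (upF K' L ⊔ M : IntermediateField ℂ K') ((F j).coeff i) :=
    fun j i => halg _ (hFa j i)
  refine ⟨fun hU => unir_down (K' := K') ?_, fun j hj => unir_down (K' := K')
    (dbl_unir hK' hx hF0 hFa' hxy hgen' hj), fun h3 m a hm η hη hne => ?_⟩
  · obtain ⟨P, -, hPd, hPs⟩ := mix_P hLup hLK' hM hFa hxy hgen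
    have hPe : Algebra.EssFiniteType ℂ P := ess_sub (K := K')
    have h1 := Pool.Agent.W904.PG.main1 (k := ℂ) (L := K') M P e₀ (d + e₁) hM
      (by rw [hK']; congr 1; omega) hPd hPs hPe hU
    have h2 : e₀ + (d + e₁) = d + (e₀ + e₁) := by omega
    rw [h2] at h1
    exact h1
  · obtain ⟨κ, hκ, hκs⟩ : ∃ κ : Fin (Finset.univ.filter fun j => 5 ≤ oddRoots (F j)).card → Fin e₁,
        Function.Injective κ ∧ ∀ i, 5 ≤ oddRoots (F (κ i)) := by
      let ψ := (Finset.univ.filter fun j => 5 ≤ oddRoots (F j)).equivFin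
      exact ⟨fun i => (ψ.symm i : Fin e₁), fun a b hab => ψ.symm.injective (Subtype.ext hab),
        fun i => (Finset.mem_filter.1 (ψ.symm i).2).2⟩
    have h4 := dbl_forms hx hF0 hFa' hxy hgen' h3 hκ hκs (d + (e₀ + e₁))
      {Q | ∃ P ∈ X, ∃ ε, Over Q P ε}
    have hbas := hx.cardinalMk_eq_trdeg
    obtain ⟨M', hM', θ, hθ, hθ0⟩ := pluri_stage (N := d + (e₀ + e₁)) (e₀ := e₀) (e₁ := e₁) hK'
      (L := upF K' L) (L' := upF K' L ⊔ M)
      (M := M) le_sup_left le_sup_right hkill hLK' (by rw [← hbas]; simp) hM hη hne hm h4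
    exact push hM' hLK hα htop hθ hθ0

end

end Pool.Agent.Q298.MX
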