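import Pool.Agent.Q298.MX.Dbl
import Pool.Agent.Q298.MX.CycA

/-!
Rational cyclic covers of the line.
-/

set_option autoImplicit false
set_option linter.unusedSectionVars false
set_option linter.overlappingInstances false

open FF Module Pool.Agent.W602.GT Pool.Agent.W603.LV
open Pool.Agent.Y172 Pool.Agent.TH585.SV Pool.Agent.Y191
open Pool.Agent.Q298.JS Pool.Agent.Q298.EF
open Polynomial

namespace Pool.Agent.Q298.MX

/-- pairwise coprime numbers -/
theorem three_cop {n a b c : ℕ} (hab : a.Coprime b) (hac : a.Coprime c) (hbc : b.Coprime c)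
    (han : a ∣ n) (hbn : b ∣ n) (hcn : c ∣ n) (h1 : a ≠ n) (h2 : b ≠ n) (h3 : c ≠ n)
    (hn : 0 < n) (h : ¬ (n = 2)) : a + b + c ≤ n := by
  have hd : a * b * c ∣ n :=
    Nat.Coprime.mul_dvd_of_dvd_of_dvd (Nat.Coprime.mul_left hac hbc)
      (Nat.Coprime.mul_dvd_of_dvd_of_dvd hab han hbn) hcn
  have ha : 0 < a := Nat.pos_of_dvd_of_pos han hn
  have hb : 0 < b := Nat.pos_of_dvd_of_pos hbn hn
  have hc : 0 < c := Nat.pos_of_dvd_of_pos hcn hn
  have hle : a * b * c ≤ n := Nat.le_of_dvd hn hd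
  have key : ∀ x y z : ℕ, 2 ≤ x → 2 ≤ y → 1 ≤ z → x ≠ y → x * y * z ≤ n → x + y + z ≤ n := by
    intro x y z hx hy hz hxy hle
    have h4 : x + y + 1 ≤ x * y := by
      rcases lt_or_gt_of_ne hxy with h5 | h5 <;> nlinarith
    have h5 : (x + y + 1) * z ≤ n := le_trans (Nat.mul_le_mul_right z h4) hle
    nlinarith
  have two : ∀ x : ℕ, 2 ≤ x → x ∣ n → x ≠ n → x + 1 + 1 ≤ n := by
    rintro x hx ⟨k, hk⟩ hxn
    have hk0 : k ≠ 0 := by
      rintro rfl
      simp at hk
      omega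
    have hk1 : k ≠ 1 := by
      rintro rfl
      simp at hk
      omega
    have hk2 : 2 ≤ k := by omega
    nlinarith
  have hne : ∀ x y : ℕ, 2 ≤ x → x.Coprime y → x ≠ y := by
    rintro x y hx hxy rfl
    rw [Nat.coprime_self] at hxy
    omega
  rcases Nat.lt_or_ge 1 a with ha2 | ha1
  · rcases Nat.lt_or_ge 1 b with hb2 | hb1
    · exact key a b c ha2 hb2 hc (hne a b ha2 hab) hle
    · obtain rfl : b = 1 := by omega
      rcases Nat.lt_or_ge 1 c with hc2 | hc1
      · have := key a c 1 ha2 hc2 le_rfl (hne a c ha2 hac) (by linarith)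
        omega
      · obtain rfl : c = 1 := by omega
        exact two a ha2 han h1
  · obtain rfl : a = 1 := by omega
    rcases Nat.lt_or_ge 1 b with hb2 | hb1
    · rcases Nat.lt_or_ge 1 c with hc2 | hc1
      · have := key b c 1 hb2 hc2 le_rfl (hne b c hb2 hbc) (by linarith)
        omega
      · obtain rfl : c = 1 := by omega
        have := two b hb2 hbn h2
        omega
    · obtain rfl : b = 1 := by omega
      rcases Nat.lt_or_ge 1 c with hc2 | hc1
      · have := two c hc2 hcn h3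
        omega
      · omega

/-- **Three branch points.** -/
theorem gcd_three {m a b c : ℕ} (hm : 0 < m) (ha : ¬ m ∣ a) (hb : ¬ m ∣ b) (hc : ¬ m ∣ c)
    (h : m ∣ a + b + c) : m.gcd a + m.gcd b + m.gcd c ≤ m := by
  obtain ⟨d, hd⟩ : ∃ d, d = (m.gcd a).gcd b := ⟨_, rfl⟩
  have hdm : d ∣ m := hd ▸ (Nat.gcd_dvd_left _ _).trans (Nat.gcd_dvd_left _ _)
  have hda : d ∣ a := hd ▸ (Nat.gcd_dvd_left _ _).trans (Nat.gcd_dvd_right _ _)
  have hdb : d ∣ b := hd ▸ Nat.gcd_dvd_right _ _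
  have hdc : d ∣ c := by
    have h1 : d ∣ a + b + c := hdm.trans h
    exact (Nat.dvd_add_right (dvd_add hda hdb)).1 h1
  have hd0 : 0 < d := Nat.pos_of_dvd_of_pos hdm hm
  obtain ⟨m', rfl⟩ := hdm
  obtain ⟨a', rfl⟩ := hda
  obtain ⟨b', rfl⟩ := hdb
  obtain ⟨c', rfl⟩ := hdc
  rw [Nat.gcd_mul_left, Nat.gcd_mul_left, Nat.gcd_mul_left, ← mul_add, ← mul_add]
  refine Nat.mul_le_mul_left d ?_
  have hm' : 0 < m' := Nat.pos_of_mul_pos_left hm |> fun _ => by
    rcases Nat.eq_zero_or_pos m' with h0 | h0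
    · subst h0
      simp at hm
    · exact h0
  have h' : m' ∣ a' + b' + c' := by
    have h1 : d * m' ∣ d * (a' + b' + c') := by
      convert h using 1
      ring
    exact (Nat.mul_dvd_mul_iff_left hd0).1 h1
  have hna : ¬ m' ∣ a' := fun h1 => ha (Nat.mul_dvd_mul_left d h1)
  have hnb : ¬ m' ∣ b' := fun h1 => hb (Nat.mul_dvd_mul_left d h1)
  have hnc : ¬ m' ∣ c' := fun h1 => hc (Nat.mul_dvd_mul_left d h1)
  have hcop : ∀ p : ℕ, p ∣ m' → p ∣ a' → p ∣ b' → p = 1 := by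
    intro p h1 h2 h3
    have h4 : d * p ∣ d := by
      conv_rhs => rw [hd]
      exact Nat.dvd_gcd (Nat.dvd_gcd (Nat.mul_dvd_mul_left d h1) (Nat.mul_dvd_mul_left d h2))
        (Nat.mul_dvd_mul_left d h3)
    have h5 : d * p ≤ d := Nat.le_of_dvd hd0 h4
    have h6 : 0 < p := Nat.pos_of_dvd_of_pos h1 hm'
    nlinarith
  have cab : (m'.gcd a').Coprime (m'.gcd b') := by
    refine hcop _ ((Nat.gcd_dvd_left _ _).trans (Nat.gcd_dvd_left _ _))
      ((Nat.gcd_dvd_left _ _).trans (Nat.gcd_dvd_right _ _))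
      ((Nat.gcd_dvd_right _ _).trans (Nat.gcd_dvd_right _ _))
  have cac : (m'.gcd a').Coprime (m'.gcd c') := by
    have h1 : (m'.gcd a').gcd (m'.gcd c') ∣ m' :=
      (Nat.gcd_dvd_left _ _).trans (Nat.gcd_dvd_left _ _)
    have h2 : (m'.gcd a').gcd (m'.gcd c') ∣ a' :=
      (Nat.gcd_dvd_left _ _).trans (Nat.gcd_dvd_right _ _)
    have h3 : (m'.gcd a').gcd (m'.gcd c') ∣ c' :=
      (Nat.gcd_dvd_right _ _).trans (Nat.gcd_dvd_right _ _)
    refine hcop _ h1 h2 ?_
    have h4 := h1.trans h'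
    rw [add_assoc, Nat.dvd_add_right h2, Nat.dvd_add_left h3] at h4
    exact h4
  have cbc : (m'.gcd b').Coprime (m'.gcd c') := by
    have h1 : (m'.gcd b').gcd (m'.gcd c') ∣ m' :=
      (Nat.gcd_dvd_left _ _).trans (Nat.gcd_dvd_left _ _)
    have h2 : (m'.gcd b').gcd (m'.gcd c') ∣ b' :=
      (Nat.gcd_dvd_left _ _).trans (Nat.gcd_dvd_right _ _)
    have h3 : (m'.gcd b').gcd (m'.gcd c') ∣ c' :=
      (Nat.gcd_dvd_right _ _).trans (Nat.gcd_dvd_right _ _)
    refine hcop _ h1 ?_ h2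
    have h4 := h1.trans h'
    rw [add_assoc, Nat.dvd_add_left (dvd_add h2 h3)] at h4
    exact h4
  refine three_cop cab cac cbc (Nat.gcd_dvd_left _ _) (Nat.gcd_dvd_left _ _) (Nat.gcd_dvd_left _ _)
    (fun h1 => hna (h1 ▸ Nat.gcd_dvd_right _ _)) (fun h1 => hnb (h1 ▸ Nat.gcd_dvd_right _ _))
    (fun h1 => hnc (h1 ▸ Nat.gcd_dvd_right _ _)) hm' ?_
  rintro rfl
  omega

theorem wtc_of_dvd {m a : ℕ} (hm : 1 ≤ m) (h : m ∣ a) : wtc m a = 0 := by
  unfold wtc
  rw [Nat.gcd_eq_left h, div_self (by exact_mod_cast (by omega : m ≠ 0)), sub_self]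

theorem wtc_half {m a : ℕ} (hm : 1 ≤ m) (h : ¬ m ∣ a) : 1 / 2 ≤ wtc m a := by
  obtain ⟨k, hk⟩ := Nat.gcd_dvd_left m a
  have h1 : m.gcd a ≠ m := fun h2 => h (Nat.gcd_eq_left_iff_dvd.1 h2)
  have hk0 : k ≠ 0 := by
    rintro rfl
    omega
  have hk1 : k ≠ 1 := by
    rintro rfl
    rw [mul_one] at hk
    exact h1 hk.symm
  have h2 : 2 * m.gcd a ≤ m := by
    have h3 : 2 ≤ k := by omega
    calc 2 * m.gcd a ≤ k * m.gcd a := Nat.mul_le_mul_right _ h3
      _ = m := by rw [mul_comm]; exact hk.symm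
  unfold wtc
  have h3 : (0 : ℚ) < m := by exact_mod_cast hm
  have h4 : (2 * m.gcd a : ℚ) ≤ m := by exact_mod_cast h2
  rw [le_sub_iff_add_le, ← le_sub_iff_add_le', div_le_iff₀ h3]
  linarith

theorem wtc_three {m a b c : ℕ} (hm : 1 ≤ m) (ha : ¬ m ∣ a) (hb : ¬ m ∣ b) (hc : ¬ m ∣ c)
    (h : m ∣ a + b + c) : 2 ≤ wtc m a + wtc m b + wtc m c := by
  have h1 := gcd_three hm ha hb hc h
  have h3 : (0 : ℚ) < m := by exact_mod_cast hm
  have h4 : (m.gcd a + m.gcd b + m.gcd c : ℚ) ≤ m := by exact_mod_cast h1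
  have h5 : (m.gcd a : ℚ) / m + m.gcd b / m + m.gcd c / m ≤ 1 := by
    rw [← add_div, ← add_div, div_le_one h3]
    exact h4
  unfold wtc
  linarith

/-- **A cyclic cover of the line with `W < 2` is rational.** -/
theorem cyc_rational {Ω : Type} [Field Ω] [IsAlgClosed Ω] [Algebra ℂ Ω]
    (M : IntermediateField ℂ Ω) (hM : ∀ z : Ω, IsAlgebraic M z → z ∈ M) {ι : Type} [Fintype ι]
    {m : ℕ} (hm : 1 ≤ m) {b : ι → Ω} (hb : ∀ i, b i ∈ M) {a : ι → ℕ} {c x z : Ω} (hc : c ∈ M)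
    (hx : x ∉ M) (h : z ^ m = c * ∏ i, (x - b i) ^ a i)
    (hW : ∑ i, wtc m (a i) + wtc m (∑ i, a i) < 2) :
    ∃ w, x ∈ IntermediateField.adjoin ℂ ((M : Set Ω) ∪ {w}) ∧
      z ∈ IntermediateField.adjoin ℂ ((M : Set Ω) ∪ {w}) := by
  classical
  have hMle : ∀ w, ∀ a ∈ M, a ∈ IntermediateField.adjoin ℂ ((M : Set Ω) ∪ {w}) := fun w a ha =>
    IntermediateField.subset_adjoin _ _ (Or.inl ha)
  have hw : ∀ w, w ∈ IntermediateField.adjoin ℂ ((M : Set Ω) ∪ {w}) := fun w =>
    IntermediateField.subset_adjoin _ _ (Or.inr rfl)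
  have hm0 : m ≠ 0 := by omega
  have hroot : ∀ w r : Ω, r ∈ IntermediateField.adjoin ℂ ((M : Set Ω) ∪ {w}) → z ^ m = c * r ^ m →
      z ∈ IntermediateField.adjoin ℂ ((M : Set Ω) ∪ {w}) := by
    intro w r hr h1
    by_cases hr0 : r = 0
    · rw [hr0, zero_pow hm0, mul_zero] at h1
      rw [pow_eq_zero_iff hm0] at h1
      rw [h1]
      exact zero_mem _
    · have h2 : (z / r) ^ m = c := by
        rw [div_pow, h1]
        field_simp
      have h3 : z / r ∈ M := by
        refine hM _ ⟨X ^ m - C ⟨c, hc⟩, X_pow_sub_C_ne_zero (by omega) _, ?_⟩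
        rw [map_sub, map_pow, aeval_X, aeval_C, h2]
        exact sub_self c
      have h4 : z = z / r * r := by field_simp
      rw [h4]
      exact mul_mem (hMle _ _ h3) hr
  obtain ⟨S, hS⟩ : ∃ S : Finset ι, S = Finset.univ.filter fun i => ¬ m ∣ a i := ⟨_, rfl⟩
  have hSm : ∀ i, i ∈ S ↔ ¬ m ∣ a i := fun i => by rw [hS]; simp
  obtain ⟨H, hH⟩ : ∃ H : Ω, H = ∏ i ∈ Sᶜ, (x - b i) ^ (a i / m) := ⟨_, rfl⟩
  have hprod : ∏ i, (x - b i) ^ a i = (∏ i ∈ S, (x - b i) ^ a i) * H ^ m := by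
    rw [← Finset.prod_mul_prod_compl S, hH, ← Finset.prod_pow]
    congr 1
    refine Finset.prod_congr rfl fun i hi => ?_
    rw [Finset.mem_compl, hSm, not_not] at hi
    rw [← pow_mul, Nat.div_mul_cancel hi]
  have hHw : ∀ w, x ∈ IntermediateField.adjoin ℂ ((M : Set Ω) ∪ {w}) →
      H ∈ IntermediateField.adjoin ℂ ((M : Set Ω) ∪ {w}) := fun w hxw => by
    rw [hH]
    exact prod_mem fun i _ => pow_mem (sub_mem hxw (hMle _ _ (hb i))) _
  have hsum : ∑ i, wtc m (a i) = ∑ i ∈ S, wtc m (a i) := by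
    rw [← Finset.sum_add_sum_compl S, add_eq_left]
    refine Finset.sum_eq_zero fun i hi => ?_
    rw [Finset.mem_compl, hSm, not_not] at hi
    exact wtc_of_dvd hm hi
  have hmod : m ∣ ∑ i ∈ Sᶜ, a i := Finset.dvd_sum fun i hi => by
    rw [Finset.mem_compl, hSm, not_not] at hi
    exact hi
  have hall : ∑ i, a i = ∑ i ∈ S, a i + ∑ i ∈ Sᶜ, a i := (Finset.sum_add_sum_compl S a).symm
  have hdvd : m ∣ ∑ i, a i ↔ m ∣ ∑ i ∈ S, a i := by
    rw [hall]
    exact Nat.dvd_add_left hmod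
  have hge : (S.card : ℚ) / 2 ≤ ∑ i ∈ S, wtc m (a i) := by
    have h1 : ∑ _i ∈ S, (1 / 2 : ℚ) ≤ ∑ i ∈ S, wtc m (a i) :=
      Finset.sum_le_sum fun i hi => wtc_half hm ((hSm i).1 hi)
    rw [Finset.sum_const, nsmul_eq_mul] at h1
    linarith
  rw [hsum] at hW
  have hnn : 0 ≤ wtc m (∑ i, a i) := wtc_nonneg hm _
  have hcard : S.card ≤ 3 := by
    by_contra h1
    have h2 : (4 : ℚ) ≤ S.card := by exact_mod_cast (by omega : 4 ≤ S.card)
    linarith
  rw [hprod] at h
  have hcases : S.card = 0 ∨ S.card = 1 ∨ S.card = 2 ∨ S.card = 3 := by omega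
  rcases hcases with h0 | h0 | h0 | h0
  · rw [Finset.card_eq_zero] at h0
    rw [h0, Finset.prod_empty, one_mul] at h
    exact ⟨x, hw x, hroot x H (hHw x (hw x)) h⟩
  · obtain ⟨i, hi⟩ := Finset.card_eq_one.1 h0
    rw [hi, Finset.prod_singleton] at h
    obtain ⟨w, hwm⟩ := IsAlgClosed.exists_pow_nat_eq (x - b i) (by omega : 0 < m)
    have hxw : x ∈ IntermediateField.adjoin ℂ ((M : Set Ω) ∪ {w}) := by
      have h1 : x = w ^ m + b i := by rw [hwm]; ring
      rw [h1]
      exact add_mem (pow_mem (hw w) _) (hMle _ _ (hb i))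
    refine ⟨w, hxw, hroot w (w ^ a i * H) (mul_mem (pow_mem (hw w) _) (hHw w hxw)) ?_⟩
    rw [h, ← hwm]
    ring
  · obtain ⟨i, j, hij, hS2⟩ := Finset.card_eq_two.1 h0
    have hi : ¬ m ∣ a i := (hSm i).1 (by rw [hS2]; simp)
    have hj : ¬ m ∣ a j := (hSm j).1 (by rw [hS2]; simp)
    have hs2 : ∑ l ∈ S, a l = a i + a j := by rw [hS2, Finset.sum_pair hij]
    have hw2 : ∑ l ∈ S, wtc m (a l) = wtc m (a i) + wtc m (a j) := by
      rw [hS2, Finset.sum_pair hij]
    have hp2 : ∏ l ∈ S, (x - b l) ^ a l = (x - b i) ^ a i * (x - b j) ^ a j := by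
      rw [hS2, Finset.prod_pair hij]
    by_cases hA : m ∣ ∑ l, a l
    · rw [hdvd, hs2] at hA
      obtain ⟨t, ht⟩ := hA
      rw [hp2] at h
      by_cases hbij : b i = b j
      · refine ⟨x, hw x, hroot x ((x - b j) ^ t * H)
          (mul_mem (pow_mem (sub_mem (hw x) (hMle _ _ (hb j))) _) (hHw x (hw x))) ?_⟩
        rw [h, hbij, ← pow_add, ht]
        ring
      · have hxj : x - b j ≠ 0 := fun h1 => hx (by
          rw [sub_eq_zero.1 h1]
          exact hb j)
        obtain ⟨w, hwm⟩ := IsAlgClosed.exists_pow_nat_eq ((x - b i) / (x - b j))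
          (by omega : 0 < m)
        have h1 : 1 - w ^ m ≠ 0 := by
          rw [hwm]
          intro h2
          have h3 : (x - b i) / (x - b j) = 1 := (sub_eq_zero.1 h2).symm
          rw [div_eq_one_iff_eq hxj] at h3
          exact hbij (sub_right_inj.1 h3)
        have hxw : x ∈ IntermediateField.adjoin ℂ ((M : Set Ω) ∪ {w}) := by
          have h2 : x = (b i - b j * w ^ m) / (1 - w ^ m) := by
            rw [eq_div_iff h1, hwm]
            field_simp
            ring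
          rw [h2]
          exact div_mem (sub_mem (hMle _ _ (hb i)) (mul_mem (hMle _ _ (hb j)) (pow_mem (hw w) _)))
            (sub_mem (one_mem _) (pow_mem (hw w) _))
        refine ⟨w, hxw, hroot w (w ^ a i * (x - b j) ^ t * H)
          (mul_mem (mul_mem (pow_mem (hw w) _) (pow_mem (sub_mem hxw (hMle _ _ (hb j))) _))
            (hHw w hxw)) ?_⟩
        have h4 : (w ^ a i * (x - b j) ^ t * H) ^ m =
            (w ^ m) ^ a i * (x - b j) ^ (m * t) * H ^ m := by ring
        have h5 : (x - b j) ^ (a i + a j) = (x - b j) ^ a i * (x - b j) ^ a j := pow_add _ _ _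
        rw [h, h4, ← ht, hwm, div_pow, h5]
        field_simp
    · exfalso
      have h1 : ¬ m ∣ (m - 1) * ∑ l, a l := by
        intro h2
        have h3 : m.Coprime (m - 1) := by
          obtain ⟨n, rfl⟩ : ∃ n, m = n + 1 := ⟨m - 1, by omega⟩
          rw [Nat.add_sub_cancel]
          simp
        exact hA (h3.dvd_of_dvd_mul_left h2)
      have h2 : m ∣ a i + a j + (m - 1) * ∑ l, a l := by
        have h3 : a i + a j + ∑ l ∈ Sᶜ, a l = ∑ l, a l := by rw [hall, hs2]
        have h4 : m ∣ (a i + a j + (m - 1) * ∑ l, a l) + ∑ l ∈ Sᶜ, a l := by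
          refine ⟨∑ l, a l, ?_⟩
          obtain ⟨n, rfl⟩ : ∃ n, m = n + 1 := ⟨m - 1, by omega⟩
          rw [Nat.add_sub_cancel]
          linarith
        exact (Nat.dvd_add_left hmod).1 h4
      have h3 := wtc_three hm hi hj h1 h2
      have h4 : wtc m ((m - 1) * ∑ l, a l) = wtc m (∑ l, a l) := by
        unfold wtc
        have h5 : m.gcd ((m - 1) * ∑ l, a l) = m.gcd (∑ l, a l) := by
          have h3 : m.Coprime (m - 1) := by
            obtain ⟨n, rfl⟩ : ∃ n, m = n + 1 := ⟨m - 1, by omega⟩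
            rw [Nat.add_sub_cancel]
            simp
          exact Nat.Coprime.gcd_mul_left_cancel_right _ h3.symm
        rw [h5]
      rw [h4] at h3
      rw [hw2] at hW
      linarith
  · exfalso
    obtain ⟨i, j, l, hij, hil, hjl, hS3⟩ := Finset.card_eq_three.1 h0
    have hi : ¬ m ∣ a i := (hSm i).1 (by rw [hS3]; simp)
    have hj : ¬ m ∣ a j := (hSm j).1 (by rw [hS3]; simp)
    have hl : ¬ m ∣ a l := (hSm l).1 (by rw [hS3]; simp)
    have hs3 : ∀ f : ι → ℕ, ∑ q ∈ S, f q = f i + f j + f l := fun f => by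
      rw [hS3, Finset.sum_insert (by simp [hij, hil]), Finset.sum_pair hjl, add_assoc]
    have hw3 : ∑ q ∈ S, wtc m (a q) = wtc m (a i) + wtc m (a j) + wtc m (a l) := by
      rw [hS3, Finset.sum_insert (by simp [hij, hil]), Finset.sum_pair hjl, add_assoc]
    by_cases hA : m ∣ ∑ q, a q
    · rw [hdvd, hs3] at hA
      have h1 := wtc_three hm hi hj hl hA
      rw [hw3] at hW
      linarith
    · have h1 := wtc_half hm hA
      have h2 := wtc_half hm hi
      have h3 := wtc_half hm hj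
      have h4 := wtc_half hm hl
      rw [hw3] at hW
      linarith

theorem split_fin {Ω : Type} [Field Ω] [IsAlgClosed Ω] (p : Polynomial Ω) :
    ∃ (n : ℕ) (β : Fin n → Ω), n = p.natDegree ∧ p = C p.leadingCoeff * ∏ i, (X - C (β i)) := by
  have h1 := IsAlgClosed.splits p
  have h2 := h1.eq_prod_roots
  refine ⟨p.roots.toList.length, fun i => p.roots.toList.get i, ?_, ?_⟩
  · rw [Multiset.length_toList]
    exact (splits_iff_card_roots.1 h1)
  · conv_lhs => rw [h2]
    congr 1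
    have h3 : ∏ i, (X - C (p.roots.toList.get i)) =
        (p.roots.toList.map fun b => X - C b).prod := by
      rw [← List.prod_ofFn]
      congr 1
      conv_rhs => rw [← List.ofFn_get p.roots.toList]
      rw [List.map_ofFn]
      rfl
    have h4 : (p.roots.toList.map fun b => X - C b).prod =
        (p.roots.map fun b => X - C b).prod := by
      conv_rhs => rw [← Multiset.coe_toList p.roots]
      rw [Multiset.map_coe, Multiset.prod_coe]
    rw [← h4, ← h3]

/-- **A fibration in rational cyclic covers of the line is uniruled.** -/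
theorem cyc_unir {K : Type} [Field K] [Algebra ℂ K] [Algebra.EssFiniteType ℂ K] {e N : ℕ}
    (hK : Algebra.trdeg ℂ K = N) {F : IntermediateField ℂ K} {x z : Fin e → K} {m s : Fin e → ℕ}
    {g : ∀ j, Fin (s j) → Polynomial F} {a : ∀ j, Fin (s j) → ℕ} {c : Fin e → K}
    (h : CycData F x z m s g a c) (j₀ : Fin e) (hj : wsum m s g a j₀ < 2) : Unir K N := by
  classical
  have hch : CharZero K := charZero_of_injective_algebraMap (algebraMap ℂ K).injective
  obtain ⟨D, hD⟩ := exists_der (L := F) x h.bas (fun i => if j₀ = i then 1 else 0)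
  obtain ⟨D', hD'⟩ : ∃ D' : Derivation ℂ K K, D' = D.restrictScalars ℂ := ⟨_, rfl⟩
  have hDD : ∀ a, D' a = D a := fun a => by
    rw [hD']
    rfl
  obtain ⟨F₀, hF₀⟩ : ∃ F₀ : IntermediateField ℂ K, F₀ = cfield D' := ⟨_, rfl⟩
  have hmem : ∀ a, a ∈ F₀ ↔ D a = 0 := fun a => by
    rw [hF₀, mem_cfield, hDD]
  have halg : ∀ a ∈ F, a ∈ F₀ := fun a ha => (hmem a).2 (D.map_algebraMap ⟨a, ha⟩)
  have hxj : ∀ j, j₀ ≠ j → x j ∈ F₀ := fun j hj => by
    rw [hmem, hD, if_neg hj]
  have hev : ∀ (q : F[X]) (w : K) (E : IntermediateField ℂ K), (∀ a ∈ F, a ∈ E) → w ∈ E →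
      aeval w q ∈ E := by
    intro q w E hE hw
    rw [aeval_eq_sum_range]
    refine sum_mem fun i _ => ?_
    rw [Algebra.smul_def]
    exact mul_mem (hE _ (q.coeff i).2) (pow_mem hw i)
  have hzj : ∀ j, j₀ ≠ j → z j ∈ F₀ := fun j hj => by
    rw [hmem]
    by_cases hy : z j = 0
    · rw [hy, map_zero]
    have h1 : z j ^ m j ∈ F₀ := by
      rw [h.eq j]
      exact mul_mem (halg _ (h.cst j).1)
        (prod_mem fun k _ => pow_mem (hev _ _ F₀ halg (hxj j hj)) _)
    rw [hmem, D.leibniz_pow] at h1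
    simp only [nsmul_eq_mul, smul_eq_mul] at h1
    rcases mul_eq_zero.1 h1 with h2 | h2
    · have h3 := h.pos j
      have h4 : m j = 0 := by exact_mod_cast h2
      omega
    · rcases mul_eq_zero.1 h2 with h3 | h3
      · exact absurd h3 (pow_ne_zero _ hy)
      · exact h3
  have htr : ¬ IsAlgebraic F₀ (x j₀) := by
    intro h1
    have h2 := der_alg (lft F₀ D' (fun f hf => by rw [hDD]; exact (hmem f).1 hf)) h1
    have h3 : D (x j₀) = 0 := by
      rw [← hDD]
      exact h2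
    rw [hD, if_pos rfl] at h3
    exact one_ne_zero h3
  -- the algebraic closure
  obtain ⟨M, hM⟩ : ∃ M : IntermediateField ℂ (AlgebraicClosure K),
      M = (algebraicClosure F₀ (AlgebraicClosure K)).restrictScalars ℂ := ⟨_, rfl⟩
  have hMm : ∀ z, z ∈ M ↔ IsAlgebraic F₀ z := fun z => by
    rw [hM, IntermediateField.mem_restrictScalars, mem_algebraicClosure_iff]
  have hMF : ∀ a ∈ F₀, algebraMap K (AlgebraicClosure K) a ∈ M := fun a ha => by
    rw [hMm]
    exact isAlgebraic_algebraMap (⟨a, ha⟩ : F₀)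
  have hMc : ∀ z : AlgebraicClosure K, IsAlgebraic M z → z ∈ M := by
    intro z hz
    rw [hMm]
    subst hM
    have h1 : IsAlgebraic (algebraicClosure F₀ (AlgebraicClosure K)) z := hz
    exact h1.restrictScalars F₀
  have hMtr : Algebra.trdeg ℂ M + 1 ≤ N := by
    have h1 : Algebra.trdeg ℂ M = Algebra.trdeg ℂ F₀ := by
      subst hM
      change Algebra.trdeg ℂ (algebraicClosure F₀ (AlgebraicClosure K)) = _
      have h2 : Algebra.IsAlgebraic F₀ (algebraicClosure F₀ (AlgebraicClosure K)) := inferInstance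
      rw [← _root_.trdeg_add_eq ℂ F₀ (A := algebraicClosure F₀ (AlgebraicClosure K)),
        trdeg_eq_zero_iff.2 h2, add_zero]
    rw [h1, ← hK, ← _root_.trdeg_add_eq ℂ F₀ (A := K)]
    have h2 : Algebra.trdeg F₀ K ≠ 0 := by
      intro h0
      exact htr ((trdeg_eq_zero_iff.1 h0).isAlgebraic _)
    exact add_le_add_right (Cardinal.one_le_iff_ne_zero.2 h2) _
  obtain ⟨φ, hφ⟩ : ∃ φ : K →+* AlgebraicClosure K, φ = algebraMap K (AlgebraicClosure K) := ⟨_, rfl⟩
  obtain ⟨ψ, hψ⟩ : ∃ ψ : F →+* AlgebraicClosure K, ψ = φ.comp (algebraMap F K) := ⟨_, rfl⟩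
  have hφM : ∀ a ∈ F₀, φ a ∈ M := fun a ha => by
    rw [hφ]
    exact hMF a ha
  have hψM : ∀ a : F, ψ a ∈ M := fun a => by
    rw [hψ]
    exact hφM _ (halg _ a.2)
  have hψinj : Function.Injective ψ := ψ.injective
  have hg0 : ∀ k, g j₀ k ≠ 0 := fun k h0 => by
    have h1 := (h.sep j₀).ne_zero
    exact h1 (Finset.prod_eq_zero (Finset.mem_univ k) h0)
  choose n β hn hβ using fun k => split_fin ((g j₀ k).map ψ)
  have hdeg : ∀ k, n k = (g j₀ k).natDegree := fun k => by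
    rw [hn k, natDegree_map_eq_of_injective hψinj]
  have hval : ∀ k, φ (aeval (x j₀) (g j₀ k)) =
      ((g j₀ k).map ψ).leadingCoeff * ∏ i, (φ (x j₀) - β k i) := fun k => by
    have h1 : φ (aeval (x j₀) (g j₀ k)) = ((g j₀ k).map ψ).eval (φ (x j₀)) := by
      rw [eval_map, hψ, aeval_def, hom_eval₂]
    rw [h1]
    conv_lhs => rw [hβ k]
    rw [eval_mul, eval_C, eval_prod]
    simp
  have hβM : ∀ k i, β k i ∈ M := fun k i => by
    refine hMc _ ?_
    obtain ⟨p, hp⟩ : ∃ p : (M : IntermediateField ℂ (AlgebraicClosure K))[X],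
        p.map (algebraMap M (AlgebraicClosure K)) = (g j₀ k).map ψ := by
      refine (mem_lifts _).1 ((lifts_iff_coeff_lifts _).2 fun i => ?_)
      rw [coeff_map]
      exact ⟨⟨_, hψM _⟩, rfl⟩
    refine ⟨p, ?_, ?_⟩
    · rintro rfl
      rw [Polynomial.map_zero] at hp
      exact hg0 k ((Polynomial.map_eq_zero _).1 hp.symm)
    · rw [← eval_map_algebraMap, hp, hβ k, eval_mul, eval_prod]
      rw [Finset.prod_eq_zero (Finset.mem_univ i) (by simp), mul_zero]
  obtain ⟨w, hw1, hw2⟩ := cyc_rational M hMc (ι := Σ k : Fin (s j₀), Fin (n k)) (h.pos j₀)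
    (b := fun i => β i.1 i.2) (fun i => hβM _ _) (a := fun i => a j₀ i.1)
    (c := φ (c j₀) * ∏ k, ((g j₀ k).map ψ).leadingCoeff ^ a j₀ k)
    (x := φ (x j₀)) (z := φ (z j₀))
    (mul_mem (hφM _ (halg _ (h.cst j₀).1)) (prod_mem fun k _ => pow_mem (by
      rw [leadingCoeff_map_of_injective hψinj]
      exact hψM _) _))
    (fun h1 => htr (by
      rw [hMm, hφ] at h1
      exact (isAlgebraic_algebraMap_iff (algebraMap K (AlgebraicClosure K)).injective).1 h1))
    (by
      rw [← map_pow, h.eq j₀, map_mul, map_prod, Fintype.prod_sigma, mul_assoc,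
        ← Finset.prod_mul_distrib]
      congr 1
      refine Finset.prod_congr rfl fun k _ => ?_
      rw [map_pow, hval k, mul_pow, ← Finset.prod_pow])
    (by
      rw [Fintype.sum_sigma, Fintype.sum_sigma]
      simp only [Finset.sum_const, Finset.card_univ, Fintype.card_fin, nsmul_eq_mul, smul_eq_mul]
      unfold wsum at hj
      simp only [hdeg]
      convert hj using 4
      ring)
  refine unir_of_adjoin (Ω := AlgebraicClosure K) hK M w hMtr ?_
  obtain ⟨S, hS⟩ : ∃ S : IntermediateField ℂ K,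
      S = (IntermediateField.adjoin ℂ ((M : Set (AlgebraicClosure K)) ∪ {w})).comap
        (IsScalarTower.toAlgHom ℂ K (AlgebraicClosure K)) := ⟨_, rfl⟩
  have hSm : ∀ a, a ∈ S ↔ algebraMap K (AlgebraicClosure K) a ∈
      IntermediateField.adjoin ℂ ((M : Set (AlgebraicClosure K)) ∪ {w}) := fun a => by
    rw [hS]
    rfl
  have hSF : ∀ a ∈ F₀, a ∈ S := fun a ha => by
    rw [hSm]
    exact IntermediateField.subset_adjoin _ _ (Or.inl (hMF a ha))
  rw [hφ] at hw1 hw2
  have hS1 : x j₀ ∈ S := (hSm _).2 hw1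
  have hS3 : z j₀ ∈ S := (hSm _).2 hw2
  have hS4 : (⊤ : IntermediateField ℂ K) ≤ S := by
    rw [← h.top, IntermediateField.adjoin_le_iff]
    rintro a ((ha | ⟨j, rfl⟩) | ⟨j, rfl⟩)
    · exact hSF a (halg a ha)
    · by_cases hj : j₀ = j
      · subst hj
        exact hS1
      · exact hSF _ (hxj j hj)
    · by_cases hj : j₀ = j
      · subst hj
        exact hS3
      · exact hSF _ (hzj j hj)
  exact fun g => (hSm g).1 (hS4 trivial)

end Pool.Agent.Q298.MX
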