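import Pool.Agent.Q298.MX.Cyc
import Pool.Agent.Q298.MX.Mixd
import Pool.Agent.Q298.MX.Rat

/-!
Fibrations whose geometric generic fibre is the product of a fixed variety and of superelliptic
curves: uniruledness.
-/

set_option autoImplicit false
set_option linter.unusedSectionVars false
set_option linter.overlappingInstances false

open FF Module Pool.Agent.W602.GT Pool.Agent.W603.LV
open Pool.Agent.Y172 Pool.Agent.TH585.SV Pool.Agent.Y191
open Pool.Agent.Q298.JS Pool.Agent.Q298.EF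
open Polynomial

namespace Pool.Agent.Q298.MX

section

variable {K : Type} [Field K] [Algebra ℂ K] {e₀ e₁ : ℕ} {L M : IntermediateField ℂ K}

/-- the complementary factor -/
theorem mixc_P {d : ℕ} (hL : Algebra.trdeg ℂ L = d) {x z : Fin e₁ → K} {m : Fin e₁ → ℕ}
    (hm : ∀ j, 1 ≤ m j) {G : Fin e₁ → (acl ℂ (L : Set K))[X]}
    (hLK : Algebra.trdeg L K = (e₀ + e₁ : ℕ)) (hM : Algebra.trdeg ℂ M = e₀)
    (heq : ∀ j, z j ^ m j = aeval (x j) (G j))
    (hgen : IntermediateField.adjoin ℂ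
      ((acl ℂ (L : Set K) : Set K) ∪ (M : Set K) ∪ Set.range x ∪ Set.range z) = ⊤) :
    ∃ P : IntermediateField ℂ K, Algebra.trdeg ℂ P ≤ (d + e₁ : ℕ) ∧ M ⊔ P = ⊤ := by
  classical
  have hch : CharZero K := charZero_of_injective_algebraMap (algebraMap ℂ K).injective
  have hcM : CharZero M := charZero_of_injective_algebraMap (algebraMap ℂ M).injective
  obtain ⟨P, hP⟩ : ∃ P : IntermediateField ℂ K, P = IntermediateField.adjoin ℂ
    ((acl ℂ (L : Set K) : Set K) ∪ Set.range x ∪ Set.range z) := ⟨_, rfl⟩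
  obtain ⟨b, -, hb, -⟩ := exists_crd hM
  have hbx := basis_two hb hLK (mixc_kill hm heq hgen)
  have hxi : AlgebraicIndependent L x := hbx.1.comp Sum.inr Sum.inr_injective
  refine ⟨P, trdeg_adj hL hxi fun D hD hDx => ?_, ?_⟩
  · have hal : acl ℂ (L : Set K) ≤ cfield D := fun a ha => by
      rw [mem_cfield]
      exact der_alg0 D (S := (L : Set K)) (fun s hs => hD s hs) (mem_acl.1 ha)
    have hxc : ∀ j, x j ∈ cfield D := fun j => mem_cfield.2 (hDx j)
    have h1 : P ≤ cfield D := by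
      rw [hP, IntermediateField.adjoin_le_iff]
      rintro a ((ha | ⟨j, rfl⟩) | ⟨j, rfl⟩)
      · exact hal ha
      · exact hxc j
      · have h2 : z j ^ m j ∈ cfield D := by
          rw [heq]
          exact aeval_mem_acl hal (hxc j) _
        rw [mem_cfield, D.leibniz_pow, smul_eq_zero] at h2
        rcases h2 with h2 | h2
        · have := hm j
          omega
        · rw [smul_eq_mul] at h2
          rcases mul_eq_zero.1 h2 with h3 | h3
          · rw [eq_zero_of_pow_eq_zero h3]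
            exact zero_mem _
          · exact mem_cfield.2 h3
    exact fun z hz => mem_cfield.1 (h1 hz)
  · rw [eq_top_iff, ← hgen, IntermediateField.adjoin_le_iff, hP]
    rintro a (((ha | ha) | ha) | ha)
    · exact (le_sup_right : _ ≤ M ⊔ _)
        (IntermediateField.subset_adjoin _ _ (Or.inl (Or.inl ha)))
    · exact (le_sup_left : M ≤ _) ha
    · exact (le_sup_right : _ ≤ M ⊔ _)
        (IntermediateField.subset_adjoin _ _ (Or.inl (Or.inr ha)))
    · exact (le_sup_right : _ ≤ M ⊔ _)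
        (IntermediateField.subset_adjoin _ _ (Or.inr ha))

/-- **A rational superelliptic factor.** -/
theorem mixc_unir [Algebra.EssFiniteType ℂ K] {N : ℕ} (hK : Algebra.trdeg ℂ K = N)
    (hLK : Algebra.trdeg L K = (e₀ + e₁ : ℕ)) (hM : Algebra.trdeg ℂ M = e₀)
    {x z : Fin e₁ → K} {m : Fin e₁ → ℕ} (hm : ∀ j, 1 ≤ m j)
    {G : Fin e₁ → (acl ℂ (L : Set K))[X]} (hG : ∀ j, G j ≠ 0)
    (heq : ∀ j, z j ^ m j = aeval (x j) (G j))
    (hgen : IntermediateField.adjoin ℂ
      ((acl ℂ (L : Set K) : Set K) ∪ (M : Set K) ∪ Set.range x ∪ Set.range z) = ⊤)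
    (j : Fin e₁) (hj : wgt (m j) (G j) < 2) : Unir K N := by
  classical
  have hcM : CharZero M := charZero_of_injective_algebraMap (algebraMap ℂ M).injective
  obtain ⟨b, -, hb, -⟩ := exists_crd hM
  obtain ⟨L₁, hL₁⟩ : ∃ L₁ : IntermediateField ℂ K, L₁ = L ⊔ M := ⟨_, rfl⟩
  have hL : L ≤ L₁ := by
    rw [hL₁]
    exact le_sup_left
  have hM₁ : M ≤ L₁ := by
    rw [hL₁]
    exact le_sup_right
  have hsup : ∀ D : Derivation ℂ K K, Kills D L → Kills D M → Kills D L₁ := by
    intro D h1 h2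
    have h3 : L₁ ≤ cfield D := by
      rw [hL₁]
      exact sup_le (fun z hz => mem_cfield.2 (h1 z hz)) fun z hz => mem_cfield.2 (h2 z hz)
    exact fun z hz => mem_cfield.1 (h3 hz)
  clear hL₁
  have hx : IsTranscendenceBasis L₁ x := basis_over hb hLK (mixc_kill hm heq hgen) hL hM₁ hsup
  have hgen' : IntermediateField.adjoin ℂ
      ((acl ℂ (L₁ : Set K) : Set K) ∪ Set.range x ∪ Set.range z) = ⊤ := by
    rw [eq_top_iff, ← hgen, IntermediateField.adjoin_le_iff]
    rintro a (((ha | ha) | ha) | ha)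
    · exact IntermediateField.subset_adjoin _ _ (Or.inl (Or.inl (acl_mono' hL ha)))
    · exact IntermediateField.subset_adjoin _ _ (Or.inl (Or.inl (subset_acl _ (hM₁ ha))))
    · exact IntermediateField.subset_adjoin _ _ (Or.inl (Or.inr ha))
    · exact IntermediateField.subset_adjoin _ _ (Or.inr ha)
  obtain ⟨s, g, aa, c, hc, hws⟩ := cyc_ext (acl_mono' hL) (basis_acl hx) hm hG heq hgen'
  exact cyc_unir hK hc j (by rw [hws]; exact hj)

end

section

variable {K K' : Type} [Field K] [Field K'] [Algebra ℂ K] [Algebra ℂ K'] [Algebra K K']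
  [IsScalarTower ℂ K K'] [FiniteDimensional K K'] [Algebra.EssFiniteType ℂ K] {d e₀ e₁ : ℕ}

/-- **A fixed factor and superelliptic curves**, after a base change: uniruledness. -/
theorem mixcu (hK : Algebra.trdeg ℂ K = (d + (e₀ + e₁) : ℕ))
    {L : IntermediateField ℂ K} (hL : Algebra.trdeg ℂ L = d)
    {M : IntermediateField ℂ K'} [Algebra.EssFiniteType ℂ M] (hM : Algebra.trdeg ℂ M = e₀)
    {x z : Fin e₁ → K'} {m : Fin e₁ → ℕ} (hm : ∀ j, 1 ≤ m j)
    {G : Fin e₁ → (acl ℂ (upF K' L : Set K'))[X]} (hG : ∀ j, G j ≠ 0)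
    (heq : ∀ j, z j ^ m j = aeval (x j) (G j))
    (hgen : IntermediateField.adjoin ℂ
      ((acl ℂ (upF K' L : Set K') : Set K') ∪ (M : Set K') ∪ Set.range x ∪ Set.range z) = ⊤) :
    (Unir M e₀ → Unir K (d + (e₀ + e₁))) ∧
    (∀ j, wgt (m j) (G j) < 2 → Unir K (d + (e₀ + e₁))) := by
  classical
  have hfinK' : Algebra.EssFiniteType K K' := inferInstance
  have hess : Algebra.EssFiniteType ℂ K' := Algebra.EssFiniteType.comp ℂ K K'
  have hK' : Algebra.trdeg ℂ K' = (d + (e₀ + e₁) : ℕ) := by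
    have h0 : Algebra.IsAlgebraic K K' := inferInstance
    rw [← _root_.trdeg_add_eq ℂ K (A := K'), trdeg_eq_zero_iff.2 h0, add_zero, hK]
  have hLup : Algebra.trdeg ℂ (upF K' L) = d := by
    rw [← hL]
    exact ((L.equivMap (IsScalarTower.toAlgHom ℂ K K')).trdeg_eq).symm
  have hLK' : Algebra.trdeg (upF K' L) K' = (e₀ + e₁ : ℕ) := trdeg_over hLup hK'
  refine ⟨fun hU => unir_down (K' := K') ?_, fun j hj => unir_down (K' := K')
    (mixc_unir hK' hLK' hM hm hG heq hgen j hj)⟩
  obtain ⟨P, hPd, hPs⟩ := mixc_P hLup hm hLK' hM heq hgen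
  have hPe : Algebra.EssFiniteType ℂ P := ess_sub (K := K')
  have h1 := Pool.Agent.W904.PG.main1 (k := ℂ) (L := K') M P e₀ (d + e₁) hM
    (by rw [hK']; congr 1; omega) hPd hPs hPe hU
  have h2 : e₀ + (d + e₁) = d + (e₀ + e₁) := by omega
  rw [h2] at h1
  exact h1

end

end Pool.Agent.Q298.MX
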