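import Pool.Agent.Q298.EF.CycGeo
import Pool.Agent.Q298.EF.Dich
import Pool.Agent.Q298.JS.Rel7

/-!
Double covers of any degree.
-/

set_option autoImplicit false
set_option linter.unusedSectionVars false
set_option linter.overlappingInstances false

open FF Module Pool.Agent.W602.GT Pool.Agent.W603.LV
open Pool.Agent.Y172 Pool.Agent.TH585.SV Pool.Agent.Y191
open Pool.Agent.Q298.JS Pool.Agent.Q298.EF
open Polynomial

namespace Pool.Agent.Q298.MX

/-- the number of roots of odd multiplicity in an algebraic closure -/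
noncomputable def oddRoots {K : Type} [Field K] (F : K[X]) : ℕ := by
  classical
  exact ((F.map (algebraMap K (AlgebraicClosure K))).roots.toFinset.filter fun b =>
    Odd ((F.map (algebraMap K (AlgebraicClosure K))).roots.count b)).card

theorem odd_eq {K : Type} [Field K] {c : K} {f h : K[X]} (hc : c ≠ 0) (hf : f.Monic)
    (hfs : f.Separable) (hh : h ≠ 0) : oddRoots (C c * f * h ^ 2) = f.natDegree := by
  classical
  obtain ⟨φ, hφ⟩ : ∃ φ : K →+* AlgebraicClosure K, φ = algebraMap K (AlgebraicClosure K) := ⟨_, rfl⟩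
  have hinj : Function.Injective φ := φ.injective
  have hf0 : f.map φ ≠ 0 := (Polynomial.map_ne_zero_iff hinj).2 hf.ne_zero
  have hh0 : h.map φ ≠ 0 := (Polynomial.map_ne_zero_iff hinj).2 hh
  have hc0 : φ c ≠ 0 := (map_ne_zero_iff _ hinj).2 hc
  have h1 : ((C c * f * h ^ 2).map φ).roots = (f.map φ).roots + 2 • (h.map φ).roots := by
    rw [Polynomial.map_mul, Polynomial.map_mul, Polynomial.map_pow, Polynomial.map_C,
      roots_mul (mul_ne_zero (mul_ne_zero (C_ne_zero.2 hc0) hf0) (pow_ne_zero _ hh0)),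
      roots_C_mul _ hc0, roots_pow]
  have h2 : (f.map φ).roots.Nodup := nodup_roots hfs.map
  unfold oddRoots
  rw [← hφ, h1]
  have h3 : (((f.map φ).roots + 2 • (h.map φ).roots).toFinset.filter fun b =>
      Odd (((f.map φ).roots + 2 • (h.map φ).roots).count b)) = (f.map φ).roots.toFinset := by
    ext b
    rw [Finset.mem_filter, Multiset.mem_toFinset, Multiset.mem_toFinset, Multiset.count_add,
      Multiset.count_nsmul, Multiset.mem_add]
    constructor
    · rintro ⟨-, h4⟩
      by_contra hcon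
      rw [Multiset.count_eq_zero_of_notMem hcon, zero_add] at h4
      exact (Nat.not_odd_iff_even.2 (even_two_mul _)) h4
    · intro hb
      refine ⟨Or.inl hb, ?_⟩
      rw [Multiset.count_eq_one_of_mem h2 hb]
      exact ⟨(h.map φ).roots.count b, by ring⟩
  rw [h3, Multiset.toFinset_card_of_nodup h2,
    splits_iff_card_roots.1 (IsAlgClosed.splits (f.map φ)), natDegree_map]

variable {K : Type} [Field K] [Algebra ℂ K] {e lam : ℕ} {L : IntermediateField ℂ K}

/-- **Forms along the fibres for double covers.** -/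
theorem dbl_forms {x y : Fin e → K} (hx : IsTranscendenceBasis L x) {F : Fin e → K[X]}
    (hF0 : ∀ j, F j ≠ 0) (hFa : ∀ j i, IsAlgebraic L ((F j).coeff i))
    (hxy : ∀ j, y j ^ 2 = (F j).eval (x j))
    (hgen : IntermediateField.adjoin ℂ ({a | IsAlgebraic L a} ∪ Set.range x ∪ Set.range y) = ⊤)
    (h3 : ∀ j, 3 ≤ oddRoots (F j)) {κ : Fin lam → Fin e} (hκ : Function.Injective κ)
    (hκs : ∀ i, 5 ≤ oddRoots (F (κ i))) (N : ℕ) (X : Set (Place ℂ K)) :
    HasF N X (fun _ => 0) L e lam := by
  classical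
  have hch : CharZero K := charZero_of_injective_algebraMap (algebraMap ℂ K).injective
  choose c f h hc0 hca hf hfs hfa hh0 hha hF using fun j => sqf_alg L (F j) (hF0 j) (hFa j)
  have hod : ∀ j, oddRoots (F j) = (f j).natDegree := fun j => by
    rw [hF, odd_eq (hc0 j) (hf j) (hfs j) (hh0 j)]
  have hLA : ∀ a, IsAlgebraic L a → a ∈ acl ℂ (L : Set K) := fun a ha => by
    rw [mem_acl, IntermediateField.adjoin_self]
    exact ha
  have hxA : IsTranscendenceBasis (acl ℂ (L : Set K)) x := basis_acl hx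
  have hcA : CharZero (acl ℂ (L : Set K)) :=
    charZero_of_injective_algebraMap (algebraMap ℂ (acl ℂ (L : Set K))).injective
  have hlift : ∀ p : K[X], (∀ i, IsAlgebraic L (p.coeff i)) →
      ∃ p' : (acl ℂ (L : Set K))[X], p'.map (algebraMap (acl ℂ (L : Set K)) K) = p := by
    intro p hp
    refine (mem_lifts _).1 ((lifts_iff_coeff_lifts _).2 fun i => ?_)
    exact ⟨⟨p.coeff i, hLA _ (hp i)⟩, rfl⟩
  have hinj : Function.Injective (algebraMap (acl ℂ (L : Set K)) K) :=
    (algebraMap (acl ℂ (L : Set K)) K).injective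
  choose g hg using fun j => hlift (f j) (hfa j)
  choose k hk using fun j => hlift (h j) (hha j)
  have hk0 : ∀ j, k j ≠ 0 := fun j h0 => hh0 j (by rw [← hk, h0, Polynomial.map_zero])
  have hev : ∀ (p : (acl ℂ (L : Set K))[X]) (z : K),
      aeval z p = (p.map (algebraMap (acl ℂ (L : Set K)) K)).eval z := fun p z => by
    rw [aeval_def, eval_map]
  have hhx : ∀ j, (h j).eval (x j) ≠ 0 := by
    intro j h0
    rw [← hk, ← hev] at h0
    have h1 := hxA.1.comp (fun _ : Unit => j) (fun _ _ _ => rfl)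
    rw [algebraicIndependent_unique_type_iff] at h1
    exact h1 ⟨k j, hk0 j, h0⟩
  have hgd : ∀ j, (g j).natDegree = (f j).natDegree := fun j => by
    rw [← hg, natDegree_map]
  obtain ⟨z, hz⟩ : ∃ z : Fin e → K, ∀ j, z j = y j / (h j).eval (x j) := ⟨_, fun _ => rfl⟩
  have hcyc : CycData (acl ℂ (L : Set K)) x z (fun _ => 2) (fun _ => 1) (fun j _ => g j)
      (fun _ _ => 1) c := by
    refine ⟨hxA, fun _ => by norm_num, fun j => ?_, fun j => ⟨hLA _ (hca j), hc0 j⟩, fun j => ?_, ?_⟩
    · rw [Finset.prod_const, Finset.card_univ, Fintype.card_fin, pow_one]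
      rw [← separable_map (algebraMap (acl ℂ (L : Set K)) K), hg]
      exact hfs j
    · rw [hz, div_pow, hxy, Finset.prod_const, Finset.card_univ, Fintype.card_fin, pow_one,
        pow_one, hev, hg]
      conv_lhs => rw [hF]
      have := hhx j
      rw [eval_mul, eval_mul, eval_pow, eval_C]
      field_simp
    · rw [eq_top_iff, ← hgen, IntermediateField.adjoin_le_iff]
      obtain ⟨A, hA⟩ : ∃ A : IntermediateField ℂ K,
        A = IntermediateField.adjoin ℂ
          ((acl ℂ (L : Set K) : Set K) ∪ Set.range x ∪ Set.range z) := ⟨_, rfl⟩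
      rw [← hA]
      have hA1 : ∀ a, IsAlgebraic L a → a ∈ A := fun a ha => by
        rw [hA]
        exact IntermediateField.subset_adjoin _ _ (Or.inl (Or.inl (hLA a ha)))
      have hA2 : ∀ j, x j ∈ A := fun j => by
        rw [hA]
        exact IntermediateField.subset_adjoin _ _ (Or.inl (Or.inr ⟨j, rfl⟩))
      have hA3 : ∀ j, y j / (h j).eval (x j) ∈ A := fun j => by
        rw [hA]
        exact IntermediateField.subset_adjoin _ _ (Or.inr ⟨j, hz j⟩)
      have hA4 : ∀ j, (h j).eval (x j) ∈ A := fun j => by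
        rw [eval_eq_sum_range]
        exact sum_mem fun i _ => mul_mem (hA1 _ (hha j i)) (pow_mem (hA2 j) i)
      rintro a ((ha | ⟨j, rfl⟩) | ⟨j, rfl⟩)
      · exact hA1 a ha
      · exact hA2 j
      · have h1 := mul_mem (hA3 j) (hA4 j)
        rwa [div_mul_cancel₀ _ (hhx j)] at h1
  have hw : ∀ j, wsum (fun _ => 2) (fun _ => 1) (fun j (_ : Fin 1) => g j) (fun _ _ => 1) j =
      (f j).natDegree / 2 + (1 - (Nat.gcd 2 (f j).natDegree : ℚ) / 2) := by
    intro j
    unfold wsum wtc
    rw [Finset.sum_const, Finset.sum_const, Finset.card_univ, Fintype.card_fin, one_smul, one_smul,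
      hgd, one_mul]
    norm_num
    ring
  have hgcd : ∀ n : ℕ, (Nat.gcd 2 n : ℚ) ≤ 2 := fun n => by
    exact_mod_cast Nat.gcd_le_left n (by norm_num)
  have hw2 : ∀ j, 2 ≤ wsum (fun _ => 2) (fun _ => 1) (fun j (_ : Fin 1) => g j)
      (fun _ _ => 1) j := by
    intro j
    rw [hw]
    have h1 : 3 ≤ (f j).natDegree := by rw [← hod]; exact h3 j
    rcases Nat.lt_or_ge (f j).natDegree 4 with h2 | h2
    · have h4 : (f j).natDegree = 3 := by omega
      rw [h4]
      norm_num
    · have h4 : (4 : ℚ) ≤ (f j).natDegree := by exact_mod_cast h2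
      have := hgcd (f j).natDegree
      linarith
  have hw3 : ∀ i, 2 < wsum (fun _ => 2) (fun _ => 1) (fun j (_ : Fin 1) => g j)
      (fun _ _ => 1) (κ i) := by
    intro i
    rw [hw]
    have h1 : 5 ≤ (f (κ i)).natDegree := by rw [← hod]; exact hκs i
    have h4 : (5 : ℚ) ≤ (f (κ i)).natDegree := by exact_mod_cast h1
    have := hgcd (f (κ i)).natDegree
    linarith
  exact cyc_low (N := N) hcyc hw2 hκ hw3 X

/-- **Rational curves.** -/
theorem dbl_unir [Algebra.EssFiniteType ℂ K] {N : ℕ} (hK : Algebra.trdeg ℂ K = N)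
    {x y : Fin e → K} (hx : IsTranscendenceBasis L x) {F : Fin e → K[X]}
    (hF0 : ∀ j, F j ≠ 0) (hFa : ∀ j i, IsAlgebraic L ((F j).coeff i))
    (hxy : ∀ j, y j ^ 2 = (F j).eval (x j))
    (hgen : IntermediateField.adjoin ℂ ({a | IsAlgebraic L a} ∪ Set.range x ∪ Set.range y) = ⊤)
    {j : Fin e} (hj : oddRoots (F j) ≤ 2) : Unir K N := by
  obtain ⟨c, f, h, hc0, hca, hf, hfs, hfa, hh0, hha, hF⟩ := sqf_alg L (F j) (hF0 j) (hFa j)
  refine unir_of_conic hK hx hFa hxy hgen j hc0 hca hf hfa hh0 hha hF ?_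
  rw [← odd_eq hc0 hf hfs hh0, ← hF]
  exact hj

end Pool.Agent.Q298.MX
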