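import Pool.Agent.Q298.MX.Stage
import Pool.Agent.Q298.MX.Dbl
import Pool.Agent.Q298.EF.IsoGeo

/-!
Fibrations whose geometric generic fibre is the product of a fixed variety and of double covers.
-/

set_option autoImplicit false
set_option linter.unusedSectionVars false
set_option linter.overlappingInstances false

open FF Module Pool.Agent.W602.GT Pool.Agent.W603.LV
open Pool.Agent.Y172 Pool.Agent.TH585.SV Pool.Agent.Y191
open Pool.Agent.Q298.JS Pool.Agent.Q298.EF
open Polynomial

namespace Pool.Agent.Q298.MX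

section

variable {K : Type} [Field K] [Algebra ℂ K] {e₀ e₁ : ℕ} {L M : IntermediateField ℂ K}

theorem mix_kill {x y : Fin e₁ → K} {F : Fin e₁ → K[X]}
    (hFa : ∀ j i, IsAlgebraic L ((F j).coeff i)) (hxy : ∀ j, y j ^ 2 = (F j).eval (x j))
    (hgen : IntermediateField.adjoin ℂ
      ({a | IsAlgebraic L a} ∪ (M : Set K) ∪ Set.range x ∪ Set.range y) = ⊤)
    (D : Derivation ℂ K K) (hL : Kills D L) (hM : Kills D M) (hx : ∀ i, D (x i) = 0) : D = 0 := by
  have hch : CharZero K := charZero_of_injective_algebraMap (algebraMap ℂ K).injective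
  have hal : ∀ a, IsAlgebraic L a → a ∈ cfield D := fun a ha => by
    rw [mem_cfield]
    refine der_alg0 D (S := (L : Set K)) (fun s hs => hL s hs) ?_
    rw [IntermediateField.adjoin_self]
    exact ha
  have hxc : ∀ j, x j ∈ cfield D := fun j => mem_cfield.2 (hx j)
  have h1 : (⊤ : IntermediateField ℂ K) ≤ cfield D := by
    rw [← hgen, IntermediateField.adjoin_le_iff]
    rintro a (((ha | ha) | ⟨j, rfl⟩) | ⟨j, rfl⟩)
    · exact hal a ha
    · exact mem_cfield.2 (hM a ha)
    · exact hxc j
    · have h2 : y j ^ 2 ∈ cfield D := by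
        rw [hxy, eval_eq_sum_range]
        exact sum_mem fun i _ => mul_mem (hal _ (hFa j i)) (pow_mem (hxc j) i)
      rw [mem_cfield, pow_two, D.leibniz, ← two_smul ℕ, smul_eq_mul, smul_eq_zero] at h2
      rcases h2 with h2 | h2
      · norm_num at h2
      · rcases mul_eq_zero.1 h2 with h3 | h3
        · rw [h3]
          exact zero_mem _
        · exact mem_cfield.2 h3
  ext z
  exact mem_cfield.1 (h1 (trivial : z ∈ (⊤ : IntermediateField ℂ K)))

/-- the data over the compositum with the function field of the fixed factor -/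
theorem mix_over {x y : Fin e₁ → K} {F : Fin e₁ → K[X]}
    (hLK : Algebra.trdeg L K = (e₀ + e₁ : ℕ)) (hM : Algebra.trdeg ℂ M = e₀)
    (hFa : ∀ j i, IsAlgebraic L ((F j).coeff i)) (hxy : ∀ j, y j ^ 2 = (F j).eval (x j))
    (hgen : IntermediateField.adjoin ℂ
      ({a | IsAlgebraic L a} ∪ (M : Set K) ∪ Set.range x ∪ Set.range y) = ⊤) :
    IsTranscendenceBasis (L ⊔ M : IntermediateField ℂ K) x ∧
    (∀ a : K, IsAlgebraic L a → IsAlgebraic (L ⊔ M : IntermediateField ℂ K) a) ∧
    IntermediateField.adjoin ℂ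
      ({a | IsAlgebraic (L ⊔ M : IntermediateField ℂ K) a} ∪ Set.range x ∪ Set.range y) = ⊤ ∧
    ∀ D : Derivation ℂ K K, Kills D L → Kills D M →
      Kills D (L ⊔ M : IntermediateField ℂ K) := by
  classical
  have hcM : CharZero M := charZero_of_injective_algebraMap (algebraMap ℂ M).injective
  obtain ⟨b, -, hb, -⟩ := exists_crd hM
  have hsup : ∀ D : Derivation ℂ K K, Kills D L → Kills D M →
      Kills D (L ⊔ M : IntermediateField ℂ K) := by
    intro D h1 h2
    have h3 : L ⊔ M ≤ cfield D := sup_le (fun z hz => mem_cfield.2 (h1 z hz))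
      fun z hz => mem_cfield.2 (h2 z hz)
    exact fun z hz => mem_cfield.1 (h3 hz)
  have halg : ∀ a : K, IsAlgebraic L a → IsAlgebraic (L ⊔ M : IntermediateField ℂ K) a := by
    intro a ha
    let _ : Algebra L (L ⊔ M : IntermediateField ℂ K) :=
      (IntermediateField.inclusion (le_sup_left : L ≤ L ⊔ M)).toRingHom.toAlgebra
    have : IsScalarTower L (L ⊔ M : IntermediateField ℂ K) K :=
      IsScalarTower.of_algebraMap_eq fun _ => rfl
    exact ha.extendScalars (algebraMap L (L ⊔ M : IntermediateField ℂ K)).injective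
  refine ⟨basis_over hb hLK (mix_kill hFa hxy hgen) le_sup_left le_sup_right hsup, halg, ?_, hsup⟩
  rw [eq_top_iff, ← hgen, IntermediateField.adjoin_le_iff]
  rintro a (((ha | ha) | ha) | ha)
  · exact IntermediateField.subset_adjoin _ _ (Or.inl (Or.inl (halg a ha)))
  · refine IntermediateField.subset_adjoin _ _ (Or.inl (Or.inl ?_))
    exact isAlgebraic_algebraMap
      (⟨a, (le_sup_right : M ≤ L ⊔ M) ha⟩ : (L ⊔ M : IntermediateField ℂ K))
  · exact IntermediateField.subset_adjoin _ _ (Or.inl (Or.inr ha))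
  · exact IntermediateField.subset_adjoin _ _ (Or.inr ha)

/-- the transcendence degree of the field which is generated by algebraic elements and `x` -/
theorem trdeg_adj {d : ℕ} (hL : Algebra.trdeg ℂ L = d) {x : Fin e₁ → K}
    (hx : AlgebraicIndependent L x) {P : IntermediateField ℂ K}
    (hP : ∀ D : Derivation ℂ K K, Kills D L → (∀ i, D (x i) = 0) → Kills D P) :
    Algebra.trdeg ℂ P ≤ (d + e₁ : ℕ) := by
  classical
  have h1 : Algebra.trdeg L (IntermediateField.adjoin L (Set.range x)) = e₁ := by
    open scoped IntermediateField.algebraAdjoinAdjoin in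
    have halg : Algebra.IsAlgebraic (Algebra.adjoin L (Set.range x))
        (IntermediateField.adjoin L (Set.range x)) := inferInstance
    open scoped IntermediateField.algebraAdjoinAdjoin in
    rw [← _root_.trdeg_add_eq L (Algebra.adjoin L (Set.range x))
      (A := IntermediateField.adjoin L (Set.range x)), trdeg_eq_zero_iff.2 halg, add_zero,
      ← hx.aevalEquiv.trdeg_eq, MvPolynomial.trdeg_of_isDomain]
    simp
  have h3 := _root_.trdeg_add_eq ℂ L (A := IntermediateField.adjoin L (Set.range x))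
  rw [hL, h1] at h3
  obtain ⟨B, hB⟩ : ∃ B : IntermediateField ℂ K,
      B = (IntermediateField.adjoin L (Set.range x)).restrictScalars ℂ := ⟨_, rfl⟩
  have hBm : ∀ z, z ∈ B ↔ z ∈ IntermediateField.adjoin L (Set.range x) := fun z => by
    rw [hB, IntermediateField.mem_restrictScalars]
  have h2 : Algebra.trdeg ℂ B = (d + e₁ : ℕ) := by
    push_cast
    rw [h3]
    let ι : B ≃ₐ[ℂ] IntermediateField.adjoin L (Set.range x) :=
      { toFun := fun z => ⟨z, (hBm z).1 z.2⟩
        invFun := fun z => ⟨z, (hBm z).2 z.2⟩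
        left_inv := fun _ => rfl
        right_inv := fun _ => rfl
        map_mul' := fun _ _ => rfl
        map_add' := fun _ _ => rfl
        commutes' := fun _ => rfl }
    exact ι.trdeg_eq
  have h4 : P ≤ acl ℂ (B : Set K) := by
    intro z hz
    by_contra hcon
    obtain ⟨D, h5, h6⟩ := Pool.Agent.Y172.exists_der_ne
      (Pool.Agent.Y172.acl_closed (k := ℂ) (B : Set K)) hcon
    have h7 : D z = 0 := by
      refine hP D (fun w hw => h5 _ (subset_acl _ ?_)) (fun i => h5 _ (subset_acl _ ?_)) z hz
      · exact (hBm w).2 ((IntermediateField.adjoin L (Set.range x)).algebraMap_mem ⟨w, hw⟩)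
      · exact (hBm _).2 (IntermediateField.subset_adjoin _ _ ⟨i, rfl⟩)
    rw [h6] at h7
    exact one_ne_zero h7
  have h5 := _root_.trdeg_le_of_injective (IntermediateField.inclusion h4)
    (IntermediateField.inclusion_injective h4)
  rwa [trdeg_acl, h2] at h5

/-- the complementary factor -/
theorem mix_P {d : ℕ} (hL : Algebra.trdeg ℂ L = d) {x y : Fin e₁ → K} {F : Fin e₁ → K[X]}
    (hLK : Algebra.trdeg L K = (e₀ + e₁ : ℕ)) (hM : Algebra.trdeg ℂ M = e₀)
    (hFa : ∀ j i, IsAlgebraic L ((F j).coeff i)) (hxy : ∀ j, y j ^ 2 = (F j).eval (x j))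
    (hgen : IntermediateField.adjoin ℂ
      ({a | IsAlgebraic L a} ∪ (M : Set K) ∪ Set.range x ∪ Set.range y) = ⊤) :
    ∃ P : IntermediateField ℂ K, P = IntermediateField.adjoin ℂ
      ({a | IsAlgebraic L a} ∪ Set.range x ∪ Set.range y) ∧
      Algebra.trdeg ℂ P ≤ (d + e₁ : ℕ) ∧ M ⊔ P = ⊤ := by
  classical
  have hch : CharZero K := charZero_of_injective_algebraMap (algebraMap ℂ K).injective
  have hcM : CharZero M := charZero_of_injective_algebraMap (algebraMap ℂ M).injective
  obtain ⟨P, hP⟩ : ∃ P : IntermediateField ℂ K, P = IntermediateField.adjoin ℂ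
    ({a | IsAlgebraic L a} ∪ Set.range x ∪ Set.range y) := ⟨_, rfl⟩
  obtain ⟨b, -, hb, -⟩ := exists_crd hM
  have hbx := basis_two hb hLK (mix_kill hFa hxy hgen)
  have hxi : AlgebraicIndependent L x := hbx.1.comp Sum.inr Sum.inr_injective
  refine ⟨P, hP, trdeg_adj hL hxi fun D hD hDx => ?_, ?_⟩
  · have hal : ∀ a, IsAlgebraic L a → a ∈ cfield D := fun a ha => by
      rw [mem_cfield]
      refine der_alg0 D (S := (L : Set K)) (fun s hs => hD s hs) ?_
      rw [IntermediateField.adjoin_self]
      exact ha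
    have hxc : ∀ j, x j ∈ cfield D := fun j => mem_cfield.2 (hDx j)
    have h1 : P ≤ cfield D := by
      rw [hP, IntermediateField.adjoin_le_iff]
      rintro a ((ha | ⟨j, rfl⟩) | ⟨j, rfl⟩)
      · exact hal a ha
      · exact hxc j
      · have h2 : y j ^ 2 ∈ cfield D := by
          rw [hxy, eval_eq_sum_range]
          exact sum_mem fun i _ => mul_mem (hal _ (hFa j i)) (pow_mem (hxc j) i)
        rw [mem_cfield, pow_two, D.leibniz, ← two_smul ℕ, smul_eq_mul, smul_eq_zero] at h2
        rcases h2 with h2 | h2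
        · norm_num at h2
        · rcases mul_eq_zero.1 h2 with h3 | h3
          · rw [h3]
            exact zero_mem _
          · exact mem_cfield.2 h3
    exact fun z hz => mem_cfield.1 (h1 hz)
  · rw [eq_top_iff, ← hgen, IntermediateField.adjoin_le_iff, hP]
    rintro a (((ha | ha) | ha) | ha)
    · exact (le_sup_right : _ ≤ M ⊔ _)
        (IntermediateField.subset_adjoin _ _ (Or.inl (Or.inl ha)))
    · exact (le_sup_left : M ≤ _) ha
    · exact (le_sup_right : _ ≤ M ⊔ _)
        (IntermediateField.subset_adjoin _ _ (Or.inl (Or.inr ha)))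
    · exact (le_sup_right : _ ≤ M ⊔ _)
        (IntermediateField.subset_adjoin _ _ (Or.inr ha))

end

end Pool.Agent.Q298.MX
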