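import Pool.Agent.Q298.MX.Mixa
import Pool.Agent.Q298.IS.Kun

/-!
The numerical dimension for a fixed factor and moving double covers of genus at most one.
-/

set_option autoImplicit false
set_option linter.unusedSectionVars false
set_option linter.overlappingInstances false

open FF Module Pool.Agent.W602.GT Pool.Agent.W603.LV Pool.Agent.W619.TW
open Pool.Agent.Y172 Pool.Agent.TH585.SV Pool.Agent.Y191
open Pool.Agent.Q298.JS Pool.Agent.Q298.EF Pool.Agent.Q298.IS
open Polynomial

namespace Pool.Agent.Q298.MX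

variable {K : Type} [Field K] [Algebra ℂ K] {e₀ e₁ : ℕ}

/-- a factor of a product is algebraically closed in it -/
theorem closed_of_prod {M P : IntermediateField ℂ K} {b : Fin e₀ → M}
    (hb : IsTranscendenceBasis ℂ b) (hx : IsTranscendenceBasis P (fun j => (b j : K)))
    (hsup : M ⊔ P = ⊤) : Closed P := by
  classical
  obtain ⟨Q, hQ⟩ : ∃ Q : IntermediateField ℂ K, Q = acl ℂ (P : Set K) := ⟨_, rfl⟩
  have hPQ : P ≤ Q := by
    rw [hQ]
    exact fun z hz => subset_acl _ hz
  have hxQ : IsTranscendenceBasis Q (fun j => (b j : K)) := by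
    rw [hQ]
    exact basis_acl hx
  have hsupQ : M ⊔ Q = ⊤ := by
    rw [eq_top_iff, ← hsup]
    exact sup_le_sup_left hPQ M
  have dj := dj_of hsup hb hx
  have djQ := dj_of hsupQ hb hxQ
  let B := Module.Basis.ofVectorSpace ℂ M
  have hli : LinearIndependent Q (M.val ∘ B) := djQ.ld.linearIndependent_left B.linearIndependent
  have hspan : ∀ z ∈ RR M P, z ∈ Submodule.span P (Set.range (M.val ∘ B)) := by
    intro z hz
    have h1 := RR.mem_span hz
    have h2 : Submodule.span P (M : Set K) ≤ Submodule.span P (Set.range (M.val ∘ B)) := by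
      rw [Submodule.span_le]
      intro w hw
      have h3 : (⟨w, hw⟩ : M) ∈ Submodule.span ℂ (Set.range B) := by
        rw [B.span_eq]
        trivial
      have h4 : w ∈ (Submodule.span ℂ (Set.range B)).map M.val.toLinearMap := ⟨_, h3, rfl⟩
      rw [Submodule.map_span, ← Set.range_comp] at h4
      have h5 : Submodule.span ℂ (Set.range (M.val.toLinearMap ∘ B)) ≤
          (Submodule.span P (Set.range (M.val ∘ B))).restrictScalars ℂ := by
        rw [Submodule.span_le]
        exact Submodule.subset_span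
      exact h5 h4
    exact h2 h1
  intro α hα
  have hαQ : α ∈ Q := by
    rw [hQ, mem_acl, IntermediateField.adjoin_self]
    exact hα
  obtain ⟨a, ha, c, hc, hc0, hac⟩ := dj.frac α
  obtain ⟨f, hf⟩ := (Finsupp.mem_span_range_iff_exists_finsupp).1 (hspan a ha)
  obtain ⟨g, hg⟩ := (Finsupp.mem_span_range_iff_exists_finsupp).1 (hspan c hc)
  have h1 : ∀ i, α * (g i : K) = (f i : K) := by
    have h2 : ∑ i ∈ f.support ∪ g.support, ((⟨α, hαQ⟩ : Q) * ⟨(g i : K), hPQ (g i).2⟩ -
        ⟨(f i : K), hPQ (f i).2⟩) • (M.val ∘ B) i = 0 := by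
      have h3 : α * c = a := by rw [hac, div_mul_cancel₀ _ hc0]
      rw [Finsupp.sum_of_support_subset f (Finset.subset_union_left (s₂ := g.support))
        (fun i a => a • (M.val ∘ B) i) (fun i _ => zero_smul _ _)] at hf
      rw [Finsupp.sum_of_support_subset g (Finset.subset_union_right (s₁ := f.support))
        (fun i a => a • (M.val ∘ B) i) (fun i _ => zero_smul _ _)] at hg
      have h4 : ∀ i, ((⟨α, hαQ⟩ : Q) * ⟨(g i : K), hPQ (g i).2⟩ -
          ⟨(f i : K), hPQ (f i).2⟩) • (M.val ∘ B) i =
          α * (g i • (M.val ∘ B) i) - f i • (M.val ∘ B) i := by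
        intro i
        simp only [Algebra.smul_def]
        change (α * (g i : K) - (f i : K)) * _ = α * ((g i : K) * _) - (f i : K) * _
        ring
      rw [Finset.sum_congr rfl fun i _ => h4 i, Finset.sum_sub_distrib, ← Finset.mul_sum, hf, hg,
        h3, sub_self]
    have h5 := linearIndependent_iff'.1 hli _ _ h2
    intro i
    by_cases hi : i ∈ f.support ∪ g.support
    · have h6 := congrArg Subtype.val (h5 i hi)
      change α * (g i : K) - (f i : K) = 0 at h6
      exact sub_eq_zero.1 h6
    · rw [Finset.mem_union, not_or, Finsupp.notMem_support_iff, Finsupp.notMem_support_iff] at hi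
      rw [hi.1, hi.2]
      simp
  obtain ⟨i, hi⟩ : ∃ i, g i ≠ 0 := by
    by_contra hcon
    push Not at hcon
    have h2 : g = 0 := Finsupp.ext hcon
    rw [h2, Finsupp.sum_zero_index] at hg
    exact hc0 hg.symm
  have hi' : (g i : K) ≠ 0 := fun h => hi (Subtype.ext h)
  have h2 : α = ((f i / g i : P) : K) := by
    rw [IntermediateField.coe_div, eq_div_iff hi', h1]
  rw [h2]
  exact (f i / g i : P).2

/-- the field which is generated over `L` by independent elements -/
theorem exists_gen {L : IntermediateField ℂ K} {d : ℕ} (hL : Algebra.trdeg ℂ L = d)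
    {x : Fin e₁ → K} (hx : AlgebraicIndependent L x) {P : IntermediateField ℂ K} (hLP : L ≤ P)
    (hxP : ∀ i, x i ∈ P) : ((d + e₁ : ℕ) : Cardinal) ≤ Algebra.trdeg ℂ P := by
  classical
  have h1 : Algebra.trdeg L (IntermediateField.adjoin L (Set.range x)) = e₁ := by
    open scoped IntermediateField.algebraAdjoinAdjoin in
    have halg : Algebra.IsAlgebraic (Algebra.adjoin L (Set.range x))
        (IntermediateField.adjoin L (Set.range x)) := inferInstance
    open scoped IntermediateField.algebraAdjoinAdjoin in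
    rw [← _root_.trdeg_add_eq L (Algebra.adjoin L (Set.range x))
      (A := IntermediateField.adjoin L (Set.range x)), trdeg_eq_zero_iff.2 halg, add_zero,
      ← hx.aevalEquiv.trdeg_eq, MvPolynomial.trdeg_of_isDomain]
    simp
  have h3 := _root_.trdeg_add_eq ℂ L (A := IntermediateField.adjoin L (Set.range x))
  rw [hL, h1] at h3
  have h4 : ∀ z ∈ IntermediateField.adjoin L (Set.range x), z ∈ P := by
    have h5 : IntermediateField.adjoin L (Set.range x) ≤
        IntermediateField.extendScalars (F := L) (E := P) hLP := by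
      rw [IntermediateField.adjoin_le_iff]
      rintro _ ⟨j, rfl⟩
      exact hxP j
    exact fun z hz => h5 hz
  let ι : IntermediateField.adjoin L (Set.range x) →ₐ[ℂ] P :=
    { toFun := fun z => ⟨z, h4 z z.2⟩
      map_mul' := fun _ _ => rfl
      map_add' := fun _ _ => rfl
      map_zero' := rfl
      map_one' := rfl
      commutes' := fun _ => rfl }
  have h6 := _root_.trdeg_le_of_injective ι ι.toRingHom.injective
  rw [← h3] at h6
  push_cast
  exact h6

theorem sub_alg {L P : IntermediateField ℂ K} (hLP : L ≤ P) (z : P) :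
    IsAlgebraic (IntermediateField.comap P.val L) z ↔ IsAlgebraic L (z : K) := by
  let f : (IntermediateField.comap P.val L) ≃+* L :=
    { toFun := fun z => ⟨((z : P) : K), z.2⟩
      invFun := fun z => ⟨⟨z, hLP z.2⟩, z.2⟩
      left_inv := fun _ => rfl
      right_inv := fun _ => rfl
      map_mul' := fun _ _ => rfl
      map_add' := fun _ _ => rfl }
  exact (isAlgebraic_ringHom_iff_of_comp_eq f P.val P.val.toRingHom.injective rfl).symm

theorem sub_trdeg {L P : IntermediateField ℂ K} (hLP : L ≤ P) :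
    Algebra.trdeg ℂ (IntermediateField.comap P.val L) = Algebra.trdeg ℂ L := by
  let f : (IntermediateField.comap P.val L) ≃ₐ[ℂ] L :=
    { toFun := fun z => ⟨((z : P) : K), z.2⟩
      invFun := fun z => ⟨⟨z, hLP z.2⟩, z.2⟩
      left_inv := fun _ => rfl
      right_inv := fun _ => rfl
      map_mul' := fun _ _ => rfl
      map_add' := fun _ _ => rfl
      commutes' := fun _ => rfl }
  exact f.trdeg_eq

/-- **The numerical dimension**: a fixed factor and moving double covers of genus at most one. -/
theorem mix_num [Algebra.EssFiniteType ℂ K] {d : ℕ} (he : 1 ≤ e₁)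
    (hK : Algebra.trdeg ℂ K = (d + (e₀ + e₁) : ℕ)) {L M : IntermediateField ℂ K}
    (hL : Algebra.trdeg ℂ L = d) (hM : Algebra.trdeg ℂ M = e₀) {x y : Fin e₁ → K}
    {F : Fin e₁ → K[X]} (hF0 : ∀ j, F j ≠ 0) (hFa : ∀ j i, IsAlgebraic L ((F j).coeff i))
    (hxy : ∀ j, y j ^ 2 = (F j).eval (x j))
    (hgen : IntermediateField.adjoin ℂ
      ({a | IsAlgebraic L a} ∪ (M : Set K) ∪ Set.range x ∪ Set.range y) = ⊤)
    (hd : ∀ j, (F j).natDegree ≤ 4) :
    Unir K (d + (e₀ + e₁)) ∨ ∀ a, NumLe ℂ M e₀ (fun _ => False) a →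
      NumLe ℂ K (d + (e₀ + e₁)) (fun _ => False) (d + a) := by
  classical
  have hcM : CharZero M := charZero_of_injective_algebraMap (algebraMap ℂ M).injective
  have hLK : Algebra.trdeg L K = (e₀ + e₁ : ℕ) := trdeg_over hL hK
  obtain ⟨b, -, hb, -⟩ := exists_crd hM
  have hbx := basis_two hb hLK (mix_kill hFa hxy hgen)
  have hxi : AlgebraicIndependent L x := hbx.1.comp Sum.inr Sum.inr_injective
  obtain ⟨P, hP, hPd, hPs⟩ := mix_P hL hLK hM hFa hxy hgen
  have hLP : L ≤ P := fun z hz => by
    rw [hP]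
    exact IntermediateField.subset_adjoin _ _
      (Or.inl (Or.inl (isAlgebraic_algebraMap (⟨z, hz⟩ : L))))
  have haP : ∀ a, IsAlgebraic L a → a ∈ P := fun a ha => by
    rw [hP]
    exact IntermediateField.subset_adjoin _ _ (Or.inl (Or.inl ha))
  have hxP : ∀ i, x i ∈ P := fun i => by
    rw [hP]
    exact IntermediateField.subset_adjoin _ _ (Or.inl (Or.inr ⟨i, rfl⟩))
  have hyP : ∀ i, y i ∈ P := fun i => by
    rw [hP]
    exact IntermediateField.subset_adjoin _ _ (Or.inr ⟨i, rfl⟩)
  have hPt : Algebra.trdeg ℂ P = (d + e₁ : ℕ) := le_antisymm hPd (exists_gen hL hxi hLP hxP)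
  have hPe : Algebra.EssFiniteType ℂ P := ess_sub (K := K)
  have hcP : CharZero P := charZero_of_injective_algebraMap (algebraMap ℂ P).injective
  have hKP : Algebra.trdeg ℂ K = (d + e₁ + e₀ : ℕ) := by
    rw [hK]
    congr 1
    omega
  have hPK : Algebra.trdeg P K = e₀ := trdeg_over hPt hKP
  have hbP : IsTranscendenceBasis P (fun j => (b j : K)) := by
    refine iso_basis hPK ?_ hb
    rw [eq_top_iff, ← hPs]
    exact sup_le le_sup_right (le_trans (fun z hz => subset_acl _ hz) le_sup_left)
  have hcl := closed_of_prod hb hbP hPs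
  -- the data over the subfield
  obtain ⟨L', hL'⟩ : ∃ L' : IntermediateField ℂ P, L' = IntermediateField.comap P.val L := ⟨_, rfl⟩
  have hLa : ∀ z : P, IsAlgebraic L' z ↔ IsAlgebraic L (z : K) := fun z => by
    rw [hL']
    exact sub_alg hLP z
  have hLt : Algebra.trdeg ℂ L' = d := by
    rw [hL', sub_trdeg hLP, hL]
  obtain ⟨G, hG⟩ : ∃ G : Fin e₁ → P[X], ∀ j, (G j).map (algebraMap P K) = F j := by
    have h1 : ∀ j, ∃ G : P[X], G.map (algebraMap P K) = F j := fun j =>
      (mem_lifts _).1 ((lifts_iff_coeff_lifts _).2 fun i => ⟨⟨_, haP _ (hFa j i)⟩, rfl⟩)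
    choose G hG using h1
    exact ⟨G, hG⟩
  obtain ⟨x', hx'⟩ : ∃ x' : Fin e₁ → P, ∀ i, (x' i : K) = x i := ⟨fun i => ⟨x i, hxP i⟩, fun _ => rfl⟩
  obtain ⟨y', hy'⟩ : ∃ y' : Fin e₁ → P, ∀ i, (y' i : K) = y i := ⟨fun i => ⟨y i, hyP i⟩, fun _ => rfl⟩
  have hG0 : ∀ j, G j ≠ 0 := fun j h0 => hF0 j (by rw [← hG, h0, Polynomial.map_zero])
  have hGa : ∀ j i, IsAlgebraic L' ((G j).coeff i) := fun j i => by
    rw [hLa]
    have h1 : ((G j).coeff i : K) = (F j).coeff i := by
      rw [← hG, coeff_map]
      rfl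
    rw [h1]
    exact hFa j i
  have hxyP : ∀ j, y' j ^ 2 = (G j).eval (x' j) := fun j => by
    apply Subtype.ext
    have h1 : (((G j).eval (x' j) : P) : K) = (F j).eval (x j) := by
      rw [← hG, ← hx', eval_map]
      exact (Polynomial.eval₂_at_apply (algebraMap P K) (x' j)).symm
    change ((y' j ^ 2 : P) : K) = _
    rw [h1, ← hxy, IntermediateField.coe_pow, hy']
  have hgP : IntermediateField.adjoin ℂ
      ({a | IsAlgebraic L' a} ∪ Set.range x' ∪ Set.range y') = ⊤ := by
    apply IntermediateField.lift_injective P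
    rw [IntermediateField.lift_adjoin, IntermediateField.lift_top]
    conv_rhs => rw [hP]
    congr 1
    rw [Set.image_union, Set.image_union, ← Set.range_comp, ← Set.range_comp]
    congr 1
    · congr 1
      · ext a
        constructor
        · rintro ⟨z, hz, rfl⟩
          exact (hLa z).1 hz
        · intro ha
          exact ⟨⟨a, haP a ha⟩, (hLa _).2 ha, rfl⟩
      · exact congrArg _ (funext hx')
    · exact congrArg _ (funext hy')
  have hxb : IsTranscendenceBasis L' x' := by
    have h1 : Algebra.trdeg L' P = e₁ := trdeg_over hLt hPt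
    have hcL' : CharZero L' := charZero_of_injective_algebraMap (algebraMap ℂ L').injective
    obtain ⟨u, -, hu, -⟩ := exists_crd h1
    refine basis_of_gen hu fun D hD hDx => mix_kill (M := ⊥) hGa hxyP ?_ D hD ?_ hDx
    · rw [eq_top_iff, ← hgP]
      refine IntermediateField.adjoin.mono ℂ _ _ ?_
      rintro a ((ha | ha) | ha)
      · exact Or.inl (Or.inl (Or.inl ha))
      · exact Or.inl (Or.inr ha)
      · exact Or.inr ha
    · intro z hz
      rw [IntermediateField.mem_bot] at hz
      obtain ⟨t, rfl⟩ := hz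
      exact D.map_algebraMap t
  rcases dich hPt hxb hG0 hGa hxyP hgP (fun j => by
    have h1 := hd j
    rwa [← hG, natDegree_map] at h1) with h1 | h1
  · right
    obtain ⟨f, c, z, h2, h2d, h2g⟩ := h1
    intro a ha
    have h3 := total he hPt hLt hxb h2 h2d h2g
    have h4 := prod_num hM hPt hKP hPs hcl ha h3
    have e1 : d + e₁ + e₀ = d + (e₀ + e₁) := by omega
    rw [e1, add_comm a d] at h4
    exact h4
  · left
    have hMe : Algebra.EssFiniteType ℂ M := ess_sub (K := K)
    have h2 := Pool.Agent.W904.PG.main1 (k := ℂ) (L := K) P M (d + e₁) e₀ hPt hKP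
      (le_of_eq hM) (by rw [sup_comm]; exact hPs) hMe h1
    have e1 : d + e₁ + e₀ = d + (e₀ + e₁) := by omega
    rw [e1] at h2
    exact h2

end Pool.Agent.Q298.MX
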